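import Mathlib

/-!
# Edge-ordered graphs: saturation and semisaturation with a new smallest edge

Definitions for MP_582ec8_co.
-/

namespace Pool.Agent.helper63.SAT

/-- An edge-ordered graph: a simple graph with an injective labelling of its edges by natural
numbers (labels of non-edges are irrelevant). -/
structure EOGraph (V : Type*) where
  graph : SimpleGraph V
  label : Sym2 V → ℕ
  inj : ∀ e ∈ graph.edgeSet, ∀ e' ∈ graph.edgeSet, label e = label e' → e = e'

namespace EOGraph

variable {V W : Type*}

/-- `f` is an isomorphism of `G` onto a subgraph of `H` which preserves the edge order. -/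
structure Copy (G : EOGraph V) (H : EOGraph W) (f : V → W) : Prop where
  injective : Function.Injective f
  adj : ∀ x y, G.graph.Adj x y → H.graph.Adj (f x) (f y)
  lt : ∀ e ∈ G.graph.edgeSet, ∀ e' ∈ G.graph.edgeSet, G.label e < G.label e' →
    H.label (e.map f) < H.label (e'.map f)

/-- `H` contains `G`. -/
def Contains (G : EOGraph V) (H : EOGraph W) : Prop := ∃ f : V → W, Copy G H f

/-- `H + uv`: the pair `uv` is added as the new smallest edge (label `0`, all other labels are
shifted by one). -/
noncomputable def addMin (H : EOGraph W) (u v : W) : EOGraph W where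
  graph := H.graph ⊔ SimpleGraph.edge u v
  label := by
    classical
    exact fun e => if e = s(u, v) then 0 else H.label e + 1
  inj := by
    classical
    intro e he e' he' h
    have key : ∀ e ∈ (H.graph ⊔ SimpleGraph.edge u v).edgeSet, e ≠ s(u, v) →
        e ∈ H.graph.edgeSet := by
      intro e he hne
      induction e using Sym2.ind with
      | _ x y =>
        rw [SimpleGraph.mem_edgeSet, SimpleGraph.sup_adj] at he
        rcases he with he | he
        · exact he
        · exfalso
          rw [SimpleGraph.edge_adj] at he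
          apply hne
          rw [Sym2.eq_iff]
          rcases he.1 with ⟨h1, h2⟩ | ⟨h1, h2⟩
          · left; exact ⟨h1.symm ▸ rfl, h2.symm ▸ rfl⟩
          · right; exact ⟨h1.symm ▸ rfl, h2.symm ▸ rfl⟩
    by_cases h1 : e = s(u, v) <;> by_cases h2 : e' = s(u, v)
    · rw [h1, h2]
    · simp [h1, h2] at h
    · simp [h1, h2] at h
    · simp only [h1, h2, if_false] at h
      exact H.inj e (key e he h1) e' (key e' he' h2) (by omega)

/-- `H` avoids `G` and every `H + uv` contains `G`. -/
def Saturated (G : EOGraph V) (H : EOGraph W) : Prop :=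
  ¬ Contains G H ∧ ∀ u v : W, u ≠ v → ¬ H.graph.Adj u v → Contains G (H.addMin u v)

/-- Every `H + uv` contains a copy of `G` which uses the edge `uv`. -/
def SemiSaturated (G : EOGraph V) (H : EOGraph W) : Prop :=
  ∀ u v : W, u ≠ v → ¬ H.graph.Adj u v →
    ∃ f : V → W, Copy G (H.addMin u v) f ∧ ∃ e ∈ G.graph.edgeSet, e.map f = s(u, v)

/-- The number of edges. -/
noncomputable def size (H : EOGraph W) : ℕ := H.graph.edgeSet.ncard

/-- `sat_m(n, G)`. -/
noncomputable def satm (n : ℕ) (G : EOGraph V) : ℕ :=
  sInf {k | ∃ H : EOGraph (Fin n), Saturated G H ∧ H.size = k}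

/-- `ssat_m(n, G)`. -/
noncomputable def ssatm (n : ℕ) (G : EOGraph V) : ℕ :=
  sInf {k | ∃ H : EOGraph (Fin n), SemiSaturated G H ∧ H.size = k}

/-- The minimal edge of `G` exists and is isolated: both its endpoints have degree one. -/
def MinEdgeIsolated (G : EOGraph V) : Prop :=
  ∃ a b : V, G.graph.Adj a b ∧ (∀ c, G.graph.Adj a c → c = b) ∧
    (∀ c, G.graph.Adj b c → c = a) ∧ ∀ e ∈ G.graph.edgeSet, G.label s(a, b) ≤ G.label e

end EOGraph

end Pool.Agent.helper63.SAT
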