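import Mathlib

/-!
# Rings of copies contain no copy

Let `C` be a finite connected graph with an edge `ab`, let `D = C - ab`, and glue three copies
of `D` cyclically (`b` of copy `i` is identified with `a` of copy `i+1`).  The resulting graph
contains no copy of `C`.
-/

namespace Pool.Agent.helper63.SAT

open SimpleGraph

universe u v

variable {W : Type u} {X : Type v}

/-- `Ψ` is a copy of the graph `F` (on its support) in `L`. -/
structure IsCopy (F : SimpleGraph W) (L : SimpleGraph X) (Ψ : W → X) : Prop where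
  inj : ∀ x ∈ F.support, ∀ y ∈ F.support, Ψ x = Ψ y → x = y
  adj : ∀ x y, F.Adj x y → L.Adj (Ψ x) (Ψ y)

lemma IsCopy.comp {Y : Type*} {F : SimpleGraph W} {L : SimpleGraph X} {K : SimpleGraph Y}
    {Ψ : W → X} {Θ : X → Y} (h : IsCopy F L Ψ) (k : IsCopy L K Θ) : IsCopy F K (Θ ∘ Ψ) := by
  refine ⟨fun x hx y hy e => ?_, fun x y e => k.adj _ _ (h.adj _ _ e)⟩
  obtain ⟨x', hx'⟩ := hx
  obtain ⟨y', hy'⟩ := hy
  exact h.inj x ⟨x', hx'⟩ y ⟨y', hy'⟩ (k.inj _ ⟨_, h.adj _ _ hx'⟩ _ ⟨_, h.adj _ _ hy'⟩ e)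

lemma IsCopy.mono {F F' : SimpleGraph W} {L : SimpleGraph X} {Ψ : W → X} (hF : F ≤ F')
    (h : IsCopy F' L Ψ) : IsCopy F L Ψ := by
  refine ⟨fun x hx y hy e => ?_, fun x y e => h.adj _ _ (hF e)⟩
  obtain ⟨x', hx'⟩ := hx
  obtain ⟨y', hy'⟩ := hy
  exact h.inj x ⟨x', hF hx'⟩ y ⟨y', hF hy'⟩ e

/-- Three pieces `q i`, glued cyclically, and a graph `L` all of whose edges come from copies
of `D` in the pieces. -/
structure Ring (D : SimpleGraph W) (a b : W) (q : Fin 3 → W → X) (L : SimpleGraph X) :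
    Prop where
  ne : a ≠ b
  qinj : ∀ i w w', q i w = q i w' → w = w'
  glue : ∀ i, q i b = q (i + 1) a
  inter : ∀ i j w w', i ≠ j → q i w = q j w' →
    (w = b ∧ w' = a ∧ j = i + 1) ∨ (w = a ∧ w' = b ∧ i = j + 1)
  edge : ∀ x y, L.Adj x y → ∃ i w w', D.Adj w w' ∧ x = q i w ∧ y = q i w'

/-- The copy `Ψ` of `F` runs in the piece `i`. -/
def OneP (D : SimpleGraph W) (q : Fin 3 → W → X) (F : SimpleGraph W) (Ψ : W → X)
    (i : Fin 3) : Prop :=
  ∀ x y, F.Adj x y → ∃ w w', D.Adj w w' ∧ Ψ x = q i w ∧ Ψ y = q i w'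

/-- Every copy of `F` in `L` runs in one piece. -/
def NonCross (D : SimpleGraph W) (q : Fin 3 → W → X) (L : SimpleGraph X)
    (F : SimpleGraph W) : Prop :=
  ∀ Ψ : W → X, IsCopy F L Ψ → ∃ i, OneP D q F Ψ i

lemma onep_copy {D F : SimpleGraph W} {q : Fin 3 → W → X} {L : SimpleGraph X} {Ψ : W → X}
    {i : Fin 3} (hq : ∀ w w', q i w = q i w' → w = w') (h : IsCopy F L Ψ)
    (ho : OneP D q F Ψ i) :
    ∃ ψ : W → W, IsCopy F D ψ ∧ ∀ x ∈ F.support, Ψ x = q i (ψ x) := by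
  classical
  have hex : ∀ x ∈ F.support, ∃ w, Ψ x = q i w := by
    intro x hx
    obtain ⟨y, hy⟩ := hx
    obtain ⟨w, w', _, hw, _⟩ := ho x y hy
    exact ⟨w, hw⟩
  let ψ : W → W := fun x => if h : ∃ w, Ψ x = q i w then h.choose else x
  have hψ : ∀ x ∈ F.support, Ψ x = q i (ψ x) := by
    intro x hx
    have h1 := hex x hx
    have h2 : ψ x = h1.choose := dif_pos h1
    rw [h2]
    exact h1.choose_spec
  refine ⟨ψ, ⟨fun x hx y hy e => ?_, fun x y e => ?_⟩, hψ⟩
  · apply h.inj x hx y hy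
    rw [hψ x hx, hψ y hy, e]
  · obtain ⟨w, w', hD, hw, hw'⟩ := ho x y e
    have e1 : ψ x = w := hq _ _ ((hψ x ⟨y, e⟩).symm.trans hw)
    have e2 : ψ y = w' := hq _ _ ((hψ y ⟨x, e.symm⟩).symm.trans hw')
    rw [e1, e2]
    exact hD

/-- The image of `F` under a copy `ψ` in `D`. -/
def img (D F : SimpleGraph W) (ψ : W → W) : SimpleGraph W where
  Adj x y := D.Adj x y ∧ ∃ u v, F.Adj u v ∧ ψ u = x ∧ ψ v = y
  symm := ⟨by
    rintro x y ⟨h, u, v, huv, hu, hv⟩
    exact ⟨h.symm, v, u, huv.symm, hv, hu⟩⟩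
  loopless := ⟨fun x h => h.1.ne rfl⟩

lemma img_adj {D F : SimpleGraph W} {ψ : W → W} (h : IsCopy F D ψ) {u v : W}
    (e : F.Adj u v) : (img D F ψ).Adj (ψ u) (ψ v) :=
  ⟨h.adj _ _ e, u, v, e, rfl, rfl⟩

/-- `F` together with the images of all copies in `S`. -/
def ext (D F : SimpleGraph W) (S : Set (W → W)) : SimpleGraph W where
  Adj x y := F.Adj x y ∨ ∃ ψ ∈ S, (img D F ψ).Adj x y
  symm := ⟨by
    rintro x y (h | ⟨ψ, hψ, h⟩)
    · exact Or.inl h.symm
    · exact Or.inr ⟨ψ, hψ, h.symm⟩⟩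
  loopless := ⟨fun x h => by
    rcases h with h | ⟨ψ, _, h⟩
    · exact h.ne rfl
    · exact h.ne rfl⟩

lemma le_ext (D F : SimpleGraph W) (S : Set (W → W)) : F ≤ ext D F S :=
  fun _ _ h => Or.inl h

lemma ext_le {C D F : SimpleGraph W} {S : Set (W → W)} (hF : F ≤ C) (hD : D ≤ C) :
    ext D F S ≤ C := by
  intro x y h
  rcases h with h | ⟨ψ, _, h⟩
  · exact hF h
  · exact hD h.1

/-- A copy in `D` followed by a copy of the extension is a copy. -/
lemma ext_comp {D F : SimpleGraph W} {S : Set (W → W)} {L : SimpleGraph X} {Ψ : W → X}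
    (h : IsCopy (ext D F S) L Ψ) {ψ : W → W} (hψ : ψ ∈ S) (hc : IsCopy F D ψ) :
    IsCopy F L (Ψ ∘ ψ) := by
  refine ⟨fun x hx y hy e => ?_, fun x y e => ?_⟩
  · obtain ⟨x', hx'⟩ := hx
    obtain ⟨y', hy'⟩ := hy
    apply hc.inj x ⟨x', hx'⟩ y ⟨y', hy'⟩
    apply h.inj _ _ _ _ e
    · exact ⟨ψ x', Or.inr ⟨ψ, hψ, img_adj hc hx'⟩⟩
    · exact ⟨ψ y', Or.inr ⟨ψ, hψ, img_adj hc hy'⟩⟩
  · exact h.adj _ _ (Or.inr ⟨ψ, hψ, img_adj hc e⟩)

lemma ext_onep {D F : SimpleGraph W} {q : Fin 3 → W → X} {S : Set (W → W)} {Ψ : W → X}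
    {i : Fin 3} (h1 : OneP D q F Ψ i) (h2 : ∀ ψ ∈ S, OneP D q F (Ψ ∘ ψ) i) :
    OneP D q (ext D F S) Ψ i := by
  rintro x y (h | ⟨ψ, hψ, _, u, v, huv, rfl, rfl⟩)
  · exact h1 x y h
  · exact h2 ψ hψ u v huv

/-- A copy in `D = C - ab` has an edge outside every graph containing `ab` with the same number
of edges: the extension is strictly larger. -/
lemma ext_ne [Finite W] {D F : SimpleGraph W} {a b : W} (hab : F.Adj a b)
    (hD : ¬ D.Adj a b) {S : Set (W → W)} {ψ : W → W} (hψ : ψ ∈ S) (hc : IsCopy F D ψ) :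
    ¬ ext D F S ≤ F := by
  classical
  intro hle
  let f : F.edgeSet → F.edgeSet := fun e => ⟨Sym2.map ψ e.1, by
    obtain ⟨e, he⟩ := e
    induction e using Sym2.ind with
    | _ x y =>
      rw [SimpleGraph.mem_edgeSet] at he
      rw [Sym2.map_mk, SimpleGraph.mem_edgeSet]
      exact hle (Or.inr ⟨ψ, hψ, img_adj hc he⟩)⟩
  have finj : Function.Injective f := by
    rintro ⟨e, he⟩ ⟨e', he'⟩ h
    simp only [f, Subtype.mk.injEq] at h
    induction e using Sym2.ind with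
    | _ x y =>
    induction e' using Sym2.ind with
    | _ x' y' =>
      rw [SimpleGraph.mem_edgeSet] at he he'
      simp only [Sym2.map_mk, Sym2.eq_iff] at h
      have hx : x ∈ F.support := ⟨y, he⟩
      have hy : y ∈ F.support := ⟨x, he.symm⟩
      have hx' : x' ∈ F.support := ⟨y', he'⟩
      have hy' : y' ∈ F.support := ⟨x', he'.symm⟩
      simp only [Subtype.mk.injEq, Sym2.eq_iff]
      rcases h with ⟨h1, h2⟩ | ⟨h1, h2⟩
      · exact Or.inl ⟨hc.inj _ hx _ hx' h1, hc.inj _ hy _ hy' h2⟩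
      · exact Or.inr ⟨hc.inj _ hx _ hy' h1, hc.inj _ hy _ hx' h2⟩
  have fsurj : Function.Surjective f := Finite.injective_iff_surjective.mp finj
  obtain ⟨⟨e, he⟩, hfe'⟩ := fsurj ⟨s(a, b), hab⟩
  have hfe : Sym2.map ψ e = s(a, b) := congrArg Subtype.val hfe'
  clear hfe'
  induction e using Sym2.ind with
  | _ x y =>
    rw [SimpleGraph.mem_edgeSet] at he
    rw [Sym2.map_mk, Sym2.eq_iff] at hfe
    have h1 := hc.adj _ _ he
    rcases hfe with ⟨h2, h3⟩ | ⟨h2, h3⟩
    · rw [h2, h3] at h1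
      exact hD h1
    · rw [h2, h3] at h1
      exact hD h1.symm

/-! ### A walk through the ring -/

/-- A sequence of distinct vertices of the ring which starts and ends in the piece `i`, moves
inside pieces along the relation `T` and is not longer than the distance of the two ends of a
piece, stays in the piece `i`. -/
lemma seq_claim {D : SimpleGraph W} {a b : W} {q : Fin 3 → W → X} {L : SimpleGraph X}
    (R : Ring D a b q L) {T : W → W → Prop} {g : W → ℤ} {l : ℕ} (hl : 1 ≤ l)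
    (hg : ∀ p p', T p p' → g p' ≤ g p + 1 ∧ g p ≤ g p' + 1) (ga : g a = 0) (gb : g b = l)
    {x : ℕ → X} (xinj : ∀ j ≤ l, ∀ k ≤ l, x j = x k → j = k) {pc : ℕ → Fin 3}
    (step : ∀ j < l, ∃ p p', T p p' ∧ x j = q (pc j) p ∧ x (j + 1) = q (pc j) p')
    {i : Fin 3} (h0 : ∃ w, x 0 = q i w) (hend : ∃ w, x l = q i w) :
    ∀ j < l, pc j = i := by
  classical
  by_contra hcon
  push Not at hcon
  obtain ⟨s, ⟨hsl, hsi⟩, hmin⟩ : ∃ s, (s < l ∧ pc s ≠ i) ∧ ∀ k < s, ¬ (k < l ∧ pc k ≠ i) :=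
    ⟨Nat.find hcon, Nat.find_spec hcon, fun k hk => Nat.find_min hcon hk⟩
  have hmin' : ∀ k < s, pc k = i := by
    intro k hk
    by_contra h
    exact hmin k hk ⟨by omega, h⟩
  -- `x s` lies in the piece `i`
  have hxs : ∃ w, x s = q i w := by
    rcases Nat.eq_zero_or_pos s with h | h
    · rw [h]; exact h0
    · obtain ⟨p, p', _, _, h2⟩ := step (s - 1) (by omega)
      rw [hmin' (s - 1) (by omega)] at h2
      rw [Nat.sub_add_cancel h] at h2
      exact ⟨p', h2⟩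
  -- the next index at which the sequence is in the piece `i`
  have hex : ∃ t, s < t ∧ t ≤ l ∧ ∃ w, x t = q i w := ⟨l, hsl, le_rfl, hend⟩
  obtain ⟨t, ⟨hst, htl, hxt⟩, htmin⟩ : ∃ t, (s < t ∧ t ≤ l ∧ ∃ w, x t = q i w) ∧
      ∀ k < t, ¬ (s < k ∧ k ≤ l ∧ ∃ w, x k = q i w) :=
    ⟨Nat.find hex, Nat.find_spec hex, fun k hk => Nat.find_min hex hk⟩
  have hout : ∀ j, s ≤ j → j < t → pc j ≠ i := by
    intro j h1 h2 h3
    rcases Nat.eq_or_lt_of_le h1 with h | h
    · subst h; exact hsi h3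
    · obtain ⟨p, p', _, h4, _⟩ := step j (by omega)
      rw [h3] at h4
      exact htmin j h2 ⟨h, by omega, p, h4⟩
  -- the junctions
  have junc : ∀ (y : X) (k : Fin 3) (w w' : W), k ≠ i → y = q i w → y = q k w' →
      y = q i b ∨ y = q i a := by
    intro y k w w' hk h1 h2
    rcases R.inter i k w w' (Ne.symm hk) (h1.symm.trans h2) with ⟨h, _⟩ | ⟨h, _⟩
    · left; rw [h1, h]
    · right; rw [h1, h]
  have js : x s = q i b ∨ x s = q i a := by
    obtain ⟨w, hw⟩ := hxs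
    obtain ⟨p, p', _, h1, _⟩ := step s hsl
    exact junc _ _ _ _ hsi hw h1
  have jt : x t = q i b ∨ x t = q i a := by
    obtain ⟨w, hw⟩ := hxt
    obtain ⟨p, p', _, _, h1⟩ := step (t - 1) (by omega)
    rw [Nat.sub_add_cancel (by omega)] at h1
    exact junc _ _ _ _ (hout (t - 1) (by omega) (by omega)) hw h1
  -- the potential
  let f : X → ℤ := fun y =>
    if h : ∃ w, y = q (i + 1) w then g h.choose
    else if h : ∃ w, y = q (i + 2) w then l + g h.choose else 0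
  have f1 : ∀ w, f (q (i + 1) w) = g w := by
    intro w
    have h : ∃ w', q (i + 1) w = q (i + 1) w' := ⟨w, rfl⟩
    have h2 : f (q (i + 1) w) = g h.choose := dif_pos h
    rw [h2, ← R.qinj _ _ _ h.choose_spec]
  have f2 : ∀ w, f (q (i + 2) w) = l + g w := by
    intro w
    by_cases h : ∃ w', q (i + 2) w = q (i + 1) w'
    · have h2 : f (q (i + 2) w) = g h.choose := dif_pos h
      rw [h2]
      have h3 := h.choose_spec
      have hne : i + 2 ≠ i + 1 := by
        intro h4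
        have := add_left_cancel h4
        exact absurd this (by decide)
      rcases R.inter _ _ _ _ hne h3 with ⟨_, _, h6⟩ | ⟨h4, h5, _⟩
      · exfalso
        have : i + (1 : Fin 3) = i + (2 + 1) := by rw [← add_assoc]; exact h6
        have := add_left_cancel this
        exact absurd this (by decide)
      · rw [h5, h4, ga, gb]; simp
    · have h' : ∃ w', q (i + 2) w = q (i + 2) w' := ⟨w, rfl⟩
      have h2 : f (q (i + 2) w) = l + g h'.choose := by
        simp only [f]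
        rw [dif_neg h, dif_pos h']
      rw [h2, ← R.qinj _ _ _ h'.choose_spec]
  have fb : f (q i b) = 0 := by rw [R.glue i, f1, ga]
  have fa : f (q i a) = 2 * l := by
    have : q i a = q (i + 2) b := by
      rw [R.glue (i + 2)]
      congr 1
      rw [add_assoc]
      have : (2 : Fin 3) + 1 = 0 := by decide
      rw [this, add_zero]
    rw [this, f2, gb]
    ring
  have fstep : ∀ j, s ≤ j → j < t → f (x (j + 1)) ≤ f (x j) + 1 ∧ f (x j) ≤ f (x (j + 1)) + 1 := by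
    intro j h1 h2
    obtain ⟨p, p', hT, h3, h4⟩ := step j (by omega)
    have h5 := hout j h1 h2
    have key : ∀ k i : Fin 3, k ≠ i → k = i + 1 ∨ k = i + 2 := by decide
    have h6 : pc j = i + 1 ∨ pc j = i + 2 := key _ _ h5
    rw [h3, h4]
    have := hg p p' hT
    rcases h6 with h6 | h6
    · rw [h6, f1, f1]; exact this
    · rw [h6, f2, f2]; constructor <;> linarith [this.1, this.2]
  have fdist : ∀ k, s + k ≤ t → f (x (s + k)) ≤ f (x s) + k ∧ f (x s) ≤ f (x (s + k)) + k := by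
    intro k
    induction k with
    | zero => intro _; simp
    | succ k ih =>
      intro h
      have h1 := ih (by omega)
      have h2 := fstep (s + k) (by omega) (by omega)
      rw [← add_assoc]
      push_cast
      constructor <;> linarith [h1.1, h1.2, h2.1, h2.2]
  have hd := fdist (t - s) (by omega)
  rw [Nat.add_sub_cancel' hst.le] at hd
  have hts : ((t - s : ℕ) : ℤ) ≤ l := by
    have : t - s ≤ l := by omega
    exact_mod_cast this
  have hne : x s ≠ x t := by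
    intro h
    have := xinj s (by omega) t htl h
    omega
  have hl' : (1 : ℤ) ≤ l := by exact_mod_cast hl
  rcases js with h1 | h1 <;> rcases jt with h2 | h2
  · exact hne (h1.trans h2.symm)
  · rw [h1, h2, fb, fa] at hd
    linarith [hd.1]
  · rw [h1, h2, fb, fa] at hd
    linarith [hd.2]
  · exact hne (h1.trans h2.symm)

/-- Two vertices of `D` lie on a common copy of `F` in `D`. -/
def TRel (D F : SimpleGraph W) (x y : W) : Prop :=
  ∃ ψ : W → W, IsCopy F D ψ ∧ (∃ u ∈ F.support, ψ u = x) ∧ ∃ v ∈ F.support, ψ v = y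

lemma TRel.symm {D F : SimpleGraph W} {x y : W} (h : TRel D F x y) : TRel D F y x := by
  obtain ⟨ψ, h1, h2, h3⟩ := h
  exact ⟨ψ, h1, h3, h2⟩

/-- If two pieces contain the same two different vertices, they are equal. -/
lemma piece_unique {D : SimpleGraph W} {a b : W} {q : Fin 3 → W → X} {L : SimpleGraph X}
    (R : Ring D a b q L) {i j : Fin 3} {x y : X} (hxy : x ≠ y) (h1 : ∃ w, x = q i w)
    (h2 : ∃ w, y = q i w) (h3 : ∃ w, x = q j w) (h4 : ∃ w, y = q j w) : i = j := by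
  by_contra hij
  obtain ⟨w1, h1⟩ := h1
  obtain ⟨w2, h2⟩ := h2
  obtain ⟨w3, h3⟩ := h3
  obtain ⟨w4, h4⟩ := h4
  have key : ∀ i j : Fin 3, j = i + 1 → i = j + 1 → False := by decide
  rcases R.inter i j w1 w3 hij (h1.symm.trans h3) with ⟨h5, _, h7⟩ | ⟨h5, _, h7⟩ <;>
  rcases R.inter i j w2 w4 hij (h2.symm.trans h4) with ⟨h8, _, h9⟩ | ⟨h8, _, h9⟩
  · apply hxy; rw [h1, h2, h5, h8]
  · exact key _ _ h7 h9
  · exact key _ _ h9 h7
  · apply hxy; rw [h1, h2, h5, h8]

/-- The extension step when the two ends of a piece are connected through copies of `F`. -/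
lemma step_conn [Finite W] {C D : SimpleGraph W} {a b : W} {q : Fin 3 → W → X}
    {L : SimpleGraph X} (R : Ring D a b q L) (hDC : D ≤ C) (hDab : ¬ D.Adj a b)
    {F : SimpleGraph W} (hFC : F ≤ C) (hab : F.Adj a b) (hF : NonCross D q L F)
    (hconn : (SimpleGraph.fromRel (TRel D F)).Reachable b a) :
    ∃ F' ≤ C, F'.Adj a b ∧ NonCross D q L F' ∧ F ≤ F' ∧ ¬ F' ≤ F := by
  classical
  set T := SimpleGraph.fromRel (TRel D F) with hT
  have Tadj : ∀ {x y}, T.Adj x y → TRel D F x y := by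
    intro x y h
    rw [hT, SimpleGraph.fromRel_adj] at h
    rcases h.2 with h | h
    · exact h
    · exact h.symm
  obtain ⟨p, hp, hlen⟩ := hconn.exists_path_of_dist
  set l := p.length with hl
  have hl1 : 1 ≤ l := by
    rw [hlen]
    exact hconn.pos_dist_of_ne R.ne.symm
  have hu : ∀ j < l, T.Adj (p.getVert j) (p.getVert (j + 1)) := fun j hj =>
    p.adj_getVert_succ hj
  have hψ : ∀ j, ∃ ψ : W → W, j < l → IsCopy F D ψ ∧
      (∃ u ∈ F.support, ψ u = p.getVert j) ∧ ∃ v ∈ F.support, ψ v = p.getVert (j + 1) := by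
    intro j
    by_cases hj : j < l
    · obtain ⟨ψ, h⟩ := Tadj (hu j hj)
      exact ⟨ψ, fun _ => h⟩
    · exact ⟨id, fun h => absurd h hj⟩
  choose ψ hψ using hψ
  let S : Set (W → W) := {θ | ∃ j < l, θ = ψ j}
  refine ⟨ext D F S, ext_le hFC hDC, Or.inl hab, ?_, le_ext D F S,
    ext_ne hab hDab (S := S) ⟨0, hl1, rfl⟩ (hψ 0 hl1).1⟩
  intro Ψ hΨ
  obtain ⟨i, hi⟩ := hF Ψ (hΨ.mono (le_ext D F S))
  have hcopy : ∀ j < l, IsCopy F L (Ψ ∘ ψ j) := fun j hj =>
    ext_comp hΨ (S := S) ⟨j, hj, rfl⟩ (hψ j hj).1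
  have hpc : ∀ j, ∃ k : Fin 3, j < l → OneP D q F (Ψ ∘ ψ j) k := by
    intro j
    by_cases hj : j < l
    · obtain ⟨k, hk⟩ := hF _ (hcopy j hj)
      exact ⟨k, fun _ => hk⟩
    · exact ⟨0, fun h => absurd h hj⟩
  choose pc hpc using hpc
  let g : W → ℤ := fun w => if T.Reachable a w then ((min (T.dist a w) l : ℕ) : ℤ) else l
  have hg : ∀ x y, TRel D F x y → g y ≤ g x + 1 ∧ g x ≤ g y + 1 := by
    intro x y h
    by_cases hxy : x = y
    · subst hxy; constructor <;> linarith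
    have hadj : T.Adj x y := by
      rw [hT, SimpleGraph.fromRel_adj]
      exact ⟨hxy, Or.inl h⟩
    by_cases hr : T.Reachable a x
    · have hr' : T.Reachable a y := hr.trans hadj.reachable
      have h1 : g x = ((min (T.dist a x) l : ℕ) : ℤ) := if_pos hr
      have h2 : g y = ((min (T.dist a y) l : ℕ) : ℤ) := if_pos hr'
      rw [h1, h2]
      have h3 := hadj.diff_dist_adj (u := a)
      omega
    · have hr' : ¬ T.Reachable a y := fun h' => hr (h'.trans hadj.symm.reachable)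
      have h1 : g x = l := if_neg hr
      have h2 : g y = l := if_neg hr'
      rw [h1, h2]
      constructor <;> linarith
  have ga : g a = 0 := by
    have h1 : g a = ((min (T.dist a a) l : ℕ) : ℤ) := if_pos (SimpleGraph.Reachable.refl a)
    rw [h1]
    simp
  have gb : g b = l := by
    have h1 : g b = ((min (T.dist a b) l : ℕ) : ℤ) := if_pos hconn.symm
    rw [h1, SimpleGraph.dist_comm, ← hlen, min_self]
  have hsupp : ∀ j ≤ l, p.getVert j ∈ (ext D F S).support := by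
    intro j hj
    rcases Nat.lt_or_ge j l with h | h
    · obtain ⟨h1, ⟨u, hu, h2⟩, _⟩ := hψ j h
      obtain ⟨v, hv⟩ := hu
      exact ⟨ψ j v, Or.inr ⟨ψ j, ⟨j, h, rfl⟩, h2 ▸ img_adj h1 hv⟩⟩
    · have : j = l := le_antisymm hj h
      rw [this, hl, SimpleGraph.Walk.getVert_length]
      exact ⟨b, Or.inl hab⟩
  have hall := seq_claim (T := TRel D F) R hl1 hg ga gb (x := fun j => Ψ (p.getVert j))
    (xinj := by
      intro j hj k hk h
      have := hΨ.inj _ (hsupp j hj) _ (hsupp k hk) h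
      exact hp.getVert_injOn hj hk this)
    (pc := pc)
    (step := by
      intro j hj
      obtain ⟨h1, ⟨u, hu, h2⟩, ⟨v, hv, h3⟩⟩ := hψ j hj
      obtain ⟨χ, hχ, h4⟩ := onep_copy (R.qinj _) (hcopy j hj) (hpc j hj)
      refine ⟨χ u, χ v, ⟨χ, hχ, ⟨u, hu, rfl⟩, ⟨v, hv, rfl⟩⟩, ?_, ?_⟩
      · rw [← h4 u hu, Function.comp_apply, h2]
      · rw [← h4 v hv, Function.comp_apply, h3])
    (i := i)
    (h0 := by
      obtain ⟨w, w', _, _, h⟩ := hi a b hab
      exact ⟨w', by simpa using h⟩)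
    (hend := by
      obtain ⟨w, w', _, h, _⟩ := hi a b hab
      exact ⟨w, by simpa [hl] using h⟩)
  refine ⟨i, ext_onep hi ?_⟩
  rintro θ ⟨j, hj, rfl⟩
  have := hpc j hj
  rwa [hall j hj] at this

/-- Two vertices of `L` lie on a common copy of `F` in `L`. -/
def LRel (L : SimpleGraph X) (F : SimpleGraph W) (x y : X) : Prop :=
  ∃ Υ : W → X, IsCopy F L Υ ∧ (∃ u ∈ F.support, Υ u = x) ∧ ∃ v ∈ F.support, Υ v = y

lemma LRel.symm {L : SimpleGraph X} {F : SimpleGraph W} {x y : X} (h : LRel L F x y) :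
    LRel L F y x := by
  obtain ⟨ψ, h1, h2, h3⟩ := h
  exact ⟨ψ, h1, h3, h2⟩

open Relation in
lemma rtg_symm {α : Type*} {r : α → α → Prop} (hr : ∀ x y, r x y → r y x) {x y : α}
    (h : ReflTransGen r x y) : ReflTransGen r y x := by
  induction h with
  | refl => exact ReflTransGen.refl
  | tail _ h2 ih => exact (ReflTransGen.single (hr _ _ h2)).trans ih

lemma rtg_reachable {r : W → W → Prop} {x y : W} (h : Relation.ReflTransGen r x y) :
    (SimpleGraph.fromRel r).Reachable x y := by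
  induction h with
  | refl => exact SimpleGraph.Reachable.refl _
  | @tail y z h1 h2 ih =>
    by_cases hyz : y = z
    · subst hyz; exact ih
    · apply ih.trans
      apply SimpleGraph.Adj.reachable
      rw [SimpleGraph.fromRel_adj]
      exact ⟨hyz, Or.inl h2⟩

open Relation in
/-- The extension step when the two ends of a piece are not connected through copies of `F`,
but some copy touches an end. -/
lemma step_sep [Finite W] {C D : SimpleGraph W} {a b : W} {q : Fin 3 → W → X}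
    {L : SimpleGraph X} (R : Ring D a b q L) (hDC : D ≤ C) (hDab : ¬ D.Adj a b)
    {F : SimpleGraph W} (hFC : F ≤ C) (hab : F.Adj a b) (hF : NonCross D q L F)
    (hsep : ¬ ReflTransGen (TRel D F) a b)
    (htouch : ∃ ψ : W → W, IsCopy F D ψ ∧ ∃ u ∈ F.support, ψ u = a ∨ ψ u = b) :
    ∃ F' ≤ C, F'.Adj a b ∧ NonCross D q L F' ∧ F ≤ F' ∧ ¬ F' ≤ F := by
  classical
  let Ra : W → Prop := ReflTransGen (TRel D F) a
  let Rb : W → Prop := ReflTransGen (TRel D F) b
  have hdisj : ∀ w, Ra w → Rb w → False := fun w h1 h2 =>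
    hsep (h1.trans (rtg_symm (fun _ _ h => h.symm) h2))
  let S : Set (W → W) := {ψ | IsCopy F D ψ ∧ ∃ u ∈ F.support, Ra (ψ u) ∨ Rb (ψ u)}
  have haF : a ∈ F.support := ⟨b, hab⟩
  have hbF : b ∈ F.support := ⟨a, hab.symm⟩
  have hne : ∃ ψ, ψ ∈ S := by
    obtain ⟨ψ, h1, u, hu, h2⟩ := htouch
    refine ⟨ψ, h1, u, hu, ?_⟩
    rcases h2 with h2 | h2
    · left; rw [h2]
    · right; rw [h2]
  obtain ⟨ψ₀, hψ₀⟩ := hne
  refine ⟨ext D F S, ext_le hFC hDC, Or.inl hab, ?_, le_ext D F S,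
    ext_ne hab hDab hψ₀ hψ₀.1⟩
  intro Ψ hΨ
  have hΨF : IsCopy F L Ψ := hΨ.mono (le_ext D F S)
  obtain ⟨i₀, hi₀⟩ := hF Ψ hΨF
  obtain ⟨χ₀, hχ₀, hχ₀'⟩ := onep_copy (R.qinj _) hΨF hi₀
  have hcopy : ∀ ψ ∈ S, IsCopy F L (Ψ ∘ ψ) := fun ψ hψ => ext_comp hΨ hψ hψ.1
  let Cmp : X → Prop := ReflTransGen (LRel L F) (Ψ a)
  have hCmpab : Cmp (Ψ b) :=
    ReflTransGen.single ⟨Ψ, hΨF, ⟨a, haF, rfl⟩, ⟨b, hbF, rfl⟩⟩
  -- reachable vertices are mapped into the component
  have hRaS : ∀ {w w'}, (Ra w ∨ Rb w) → TRel D F w w' → LRel L F (Ψ w) (Ψ w') := by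
    intro w w' hw h
    obtain ⟨ψ, h1, ⟨u, hu, h2⟩, ⟨v, hv, h3⟩⟩ := h
    have hS : ψ ∈ S := ⟨h1, u, hu, by rw [h2]; exact hw⟩
    exact ⟨Ψ ∘ ψ, hcopy ψ hS, ⟨u, hu, by simp [h2]⟩, ⟨v, hv, by simp [h3]⟩⟩
  have hRa : ∀ w, Ra w → Cmp (Ψ w) := by
    intro w hw
    induction hw with
    | refl => exact ReflTransGen.refl
    | tail h1 h2 ih => exact ih.tail (hRaS (Or.inl h1) h2)
  have hRb : ∀ w, Rb w → Cmp (Ψ w) := by
    intro w hw
    induction hw with
    | refl => exact hCmpab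
    | tail h1 h2 ih => exact ih.tail (hRaS (Or.inr h1) h2)
  have hvert : ∀ ψ ∈ S, ∀ v ∈ F.support, Cmp (Ψ (ψ v)) := by
    intro ψ hψ v hv
    obtain ⟨h1, u, hu, h2⟩ := id hψ
    have h3 : Cmp (Ψ (ψ u)) := by
      rcases h2 with h2 | h2
      · exact hRa _ h2
      · exact hRb _ h2
    exact h3.tail ⟨Ψ ∘ ψ, hcopy ψ hψ, ⟨u, hu, rfl⟩, ⟨v, hv, rfl⟩⟩
  have hvertF : ∀ v ∈ F.support, Cmp (Ψ v) := fun v hv =>
    ReflTransGen.single ⟨Ψ, hΨF, ⟨a, haF, rfl⟩, ⟨v, hv, rfl⟩⟩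
  by_cases hJ : ∃ j, Cmp (q j b)
  · -- a junction is reached: count the copies
    exfalso
    obtain ⟨j, hj⟩ := hJ
    have hclass : ∀ x, Cmp x → (∃ w, Rb w ∧ x = q j w) ∨ ∃ w, Ra w ∧ x = q (j + 1) w := by
      intro x hx
      have hx' : ReflTransGen (LRel L F) (q j b) x :=
        (rtg_symm (fun _ _ h => h.symm) hj).trans hx
      clear hx
      induction hx' with
      | refl => exact Or.inl ⟨b, ReflTransGen.refl, rfl⟩
      | @tail y z h1 h2 ih =>
        obtain ⟨Υ, hΥ, ⟨u, hu, h3⟩, ⟨v, hv, h4⟩⟩ := h2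
        obtain ⟨k, hk⟩ := hF Υ hΥ
        obtain ⟨χ, hχ, h5⟩ := onep_copy (R.qinj _) hΥ hk
        have hT : TRel D F (χ u) (χ v) := ⟨χ, hχ, ⟨u, hu, rfl⟩, ⟨v, hv, rfl⟩⟩
        have h6 : y = q k (χ u) := by rw [← h5 u hu, h3]
        have h7 : z = q k (χ v) := by rw [← h5 v hv, h4]
        rcases ih with ⟨w, hw, h8⟩ | ⟨w, hw, h8⟩
        · by_cases hkj : k = j
          · subst hkj
            have : w = χ u := R.qinj _ _ _ (h8.symm.trans h6)
            subst this
            exact Or.inl ⟨χ v, hw.tail hT, h7⟩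
          · rcases R.inter j k _ _ (Ne.symm hkj) (h8.symm.trans h6) with
              ⟨h9, h10, h11⟩ | ⟨h9, _, _⟩
            · subst h11
              right
              refine ⟨χ v, ?_, h7⟩
              rw [h10] at hT
              exact ReflTransGen.single hT
            · exact absurd hw (by rw [h9]; exact fun h => hdisj a ReflTransGen.refl h)
        · by_cases hkj : k = j + 1
          · subst hkj
            have : w = χ u := R.qinj _ _ _ (h8.symm.trans h6)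
            subst this
            exact Or.inr ⟨χ v, hw.tail hT, h7⟩
          · rcases R.inter (j + 1) k _ _ (Ne.symm hkj) (h8.symm.trans h6) with
              ⟨h9, _, _⟩ | ⟨_, h10, h11⟩
            · exact absurd hw (by rw [h9]; exact fun h => hdisj b h ReflTransGen.refl)
            · have h12 : j = k := add_right_cancel h11
              subst h12
              left
              refine ⟨χ v, ?_, h7⟩
              rw [h10] at hT
              exact ReflTransGen.single hT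
    -- classification of a copy all of whose vertices lie in the component
    have hcl : ∀ (Υ : W → X) (k : Fin 3) (χ : W → W), (∀ v ∈ F.support, Υ v = q k (χ v)) →
        (∀ v ∈ F.support, Cmp (Υ v)) →
        (k = j ∧ ∀ v ∈ F.support, Rb (χ v)) ∨ (k = j + 1 ∧ ∀ v ∈ F.support, Ra (χ v)) := by
      intro Υ k χ h1 h2
      have key : ∀ k j : Fin 3, k = j ∨ k = j + 1 ∨ k = j + 2 := by decide
      have hn1 : ∀ j : Fin 3, j ≠ j + 1 := by decide
      have hn2 : ∀ j : Fin 3, j + 1 = j + 1 + 1 + 1 → False := by decide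
      have hn3 : ∀ j : Fin 3, j + 2 ≠ j := by decide
      have hn4 : ∀ j : Fin 3, j + 2 ≠ j + 1 := by decide
      have hn5 : ∀ j : Fin 3, j + 2 = j + 1 → False := by decide
      have hn6 : ∀ j : Fin 3, j + 1 = (j + 2) + 1 → False := by decide
      rcases key k j with hk | hk | hk
      · left
        refine ⟨hk, fun v hv => ?_⟩
        subst hk
        rcases hclass _ (h2 v hv) with ⟨w, hw, h3⟩ | ⟨w, hw, h3⟩
        · have : χ v = w := R.qinj _ _ _ ((h1 v hv).symm.trans h3)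
          rw [this]; exact hw
        · rcases R.inter k (k + 1) _ _ (hn1 k) ((h1 v hv).symm.trans h3) with
            ⟨h4, _, _⟩ | ⟨_, _, h6⟩
          · rw [h4]
          · exfalso
            have : ∀ k : Fin 3, k ≠ k + 1 + 1 := by decide
            exact this _ h6
      · right
        refine ⟨hk, fun v hv => ?_⟩
        subst hk
        rcases hclass _ (h2 v hv) with ⟨w, hw, h3⟩ | ⟨w, hw, h3⟩
        · rcases R.inter (j + 1) j _ _ (hn1 j).symm ((h1 v hv).symm.trans h3) with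
            ⟨_, _, h6⟩ | ⟨h4, _, _⟩
          · exfalso
            have : ∀ k : Fin 3, k ≠ k + 1 + 1 := by decide
            exact this _ h6
          · rw [h4]
        · have : χ v = w := R.qinj _ _ _ ((h1 v hv).symm.trans h3)
          rw [this]; exact hw
      · exfalso
        subst hk
        have hv := haF
        rcases hclass _ (h2 a hv) with ⟨w, hw, h3⟩ | ⟨w, hw, h3⟩
        · rcases R.inter (j + 2) j _ _ (hn3 j) ((h1 a hv).symm.trans h3) with
            ⟨_, h5, _⟩ | ⟨_, _, h6⟩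
          · rw [h5] at hw
            exact hdisj a ReflTransGen.refl hw
          · exact hn5 _ h6
        · rcases R.inter (j + 2) (j + 1) _ _ (hn4 j) ((h1 a hv).symm.trans h3) with
            ⟨_, _, h6⟩ | ⟨_, h5, _⟩
          · exact hn6 _ h6
          · rw [h5] at hw
            exact hdisj b hw ReflTransGen.refl
    let G : Set (SimpleGraph W) := {Z | ∃ ψ ∈ S, Z = img D F ψ}
    let G' : Set (SimpleGraph W) := {Z | Z = F ∨ Z ∈ G}
    have hdata : ∀ Z : G', ∃ (θ : W → W) (k : Fin 3) (χ : W → W), IsCopy F D χ ∧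
        (∀ v ∈ F.support, Ψ (θ v) = q k (χ v)) ∧
        (∀ x y, Z.1.Adj x y ↔ ∃ u v, F.Adj u v ∧ θ u = x ∧ θ v = y) ∧
        (∀ v ∈ F.support, Cmp (Ψ (θ v))) ∧ ∀ v ∈ F.support, θ v ∈ (ext D F S).support := by
      rintro ⟨Z, hZ⟩
      rcases hZ with rfl | ⟨ψ, hψ, rfl⟩
      · refine ⟨id, i₀, χ₀, hχ₀, hχ₀', ?_, hvertF, fun v hv => ?_⟩
        · intro x y
          constructor
          · intro h; exact ⟨x, y, h, rfl, rfl⟩
          · rintro ⟨u, v, h, rfl, rfl⟩; exact h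
        · obtain ⟨w, hw⟩ := hv
          exact ⟨w, Or.inl hw⟩
      · obtain ⟨k, hk⟩ := hF _ (hcopy ψ hψ)
        obtain ⟨χ, hχ, hχ'⟩ := onep_copy (R.qinj _) (hcopy ψ hψ) hk
        refine ⟨ψ, k, χ, hχ, hχ', ?_, hvert ψ hψ, fun v hv => ?_⟩
        · intro x y
          constructor
          · rintro ⟨_, u, v, h⟩; exact ⟨u, v, h⟩
          · rintro ⟨u, v, h, rfl, rfl⟩; exact img_adj hψ.1 h
        · obtain ⟨w, hw⟩ := hv
          exact ⟨ψ w, Or.inr ⟨ψ, hψ, img_adj hψ.1 hw⟩⟩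
    choose θ k χ hχ hpos hadj hcmp hsup using hdata
    have hmem : ∀ Z : G', χ Z ∈ S := by
      intro Z
      refine ⟨hχ Z, a, haF, ?_⟩
      rcases hcl (Ψ ∘ θ Z) (k Z) (χ Z) (hpos Z) (hcmp Z) with ⟨_, h⟩ | ⟨_, h⟩
      · exact Or.inr (h a haF)
      · exact Or.inl (h a haF)
    let f : G' → G' := fun Z => ⟨img D F (χ Z), Or.inr ⟨χ Z, hmem Z, rfl⟩⟩
    have hkk : ∀ Z Z' : G', img D F (χ Z) = img D F (χ Z') → k Z = k Z' := by
      intro Z Z' h
      have h1 : (img D F (χ Z')).Adj (χ Z a) (χ Z b) := by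
        rw [← h]; exact img_adj (hχ Z) hab
      obtain ⟨_, u, v, huv, h2, _⟩ := h1
      rcases hcl (Ψ ∘ θ Z) (k Z) (χ Z) (hpos Z) (hcmp Z) with ⟨h3, h4⟩ | ⟨h3, h4⟩ <;>
      rcases hcl (Ψ ∘ θ Z') (k Z') (χ Z') (hpos Z') (hcmp Z') with ⟨h5, h6⟩ | ⟨h5, h6⟩
      · rw [h3, h5]
      · exfalso
        refine hdisj _ (h6 u ⟨v, huv⟩) ?_
        rw [h2]; exact h4 a haF
      · exfalso
        refine hdisj _ (h4 a haF) ?_
        rw [← h2]; exact h6 u ⟨v, huv⟩
      · rw [h3, h5]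
    have hle : ∀ Z Z' : G', img D F (χ Z) = img D F (χ Z') → Z.1 ≤ Z'.1 := by
      intro Z Z' h x y hxy
      obtain ⟨u, v, huv, rfl, rfl⟩ := (hadj Z x y).1 hxy
      have hk := hkk Z Z' h
      have h1 : (img D F (χ Z')).Adj (χ Z u) (χ Z v) := by
        rw [← h]; exact img_adj (hχ Z) huv
      obtain ⟨_, u', v', huv', h2, h3⟩ := h1
      rw [hadj Z']
      refine ⟨u', v', huv', ?_, ?_⟩
      · apply hΨ.inj _ (hsup Z' u' ⟨v', huv'⟩) _ (hsup Z u ⟨v, huv⟩)
        rw [hpos Z' u' ⟨v', huv'⟩, hpos Z u ⟨v, huv⟩, h2, hk]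
      · apply hΨ.inj _ (hsup Z' v' ⟨u', huv'.symm⟩) _ (hsup Z v ⟨u, huv.symm⟩)
        rw [hpos Z' v' ⟨u', huv'.symm⟩, hpos Z v ⟨u, huv.symm⟩, h3, hk]
    have finj : Function.Injective f := by
      intro Z Z' h
      have h1 : img D F (χ Z) = img D F (χ Z') := congrArg Subtype.val h
      exact Subtype.ext (le_antisymm (hle _ _ h1) (hle _ _ h1.symm))
    have fsurj : Function.Surjective f := Finite.injective_iff_surjective.mp finj
    obtain ⟨Z, hZ⟩ := fsurj ⟨F, Or.inl rfl⟩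
    have h1 : img D F (χ Z) = F := congrArg Subtype.val hZ
    have h2 : (img D F (χ Z)).Adj a b := by rw [h1]; exact hab
    exact hDab h2.1
  · -- no junction is reached: everything is in the piece `i₀`
    push Not at hJ
    have hjunc : ∀ x, Cmp x → ∀ i k w w', x = q i w → x = q k w' → i = k := by
      intro x hx i k w w' h1 h2
      by_contra hik
      rcases R.inter i k _ _ hik (h1.symm.trans h2) with ⟨h3, _, _⟩ | ⟨_, h3, _⟩
      · exact hJ i (by rw [← h3, ← h1]; exact hx)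
      · exact hJ k (by rw [← h3, ← h2]; exact hx)
    have hin : ∀ x, Cmp x → ∃ w, x = q i₀ w := by
      intro x hx
      induction hx with
      | refl => exact ⟨χ₀ a, hχ₀' a haF⟩
      | @tail y z h1 h2 ih =>
        obtain ⟨w, hw⟩ := ih
        obtain ⟨Υ, hΥ, ⟨u, hu, h3⟩, ⟨v, hv, h4⟩⟩ := h2
        obtain ⟨k, hk⟩ := hF Υ hΥ
        obtain ⟨χ, hχ, h5⟩ := onep_copy (R.qinj _) hΥ hk
        have h6 : y = q k (χ u) := by rw [← h5 u hu, h3]
        have h7 : z = q k (χ v) := by rw [← h5 v hv, h4]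
        have := hjunc y h1 _ _ _ _ hw h6
        subst this
        exact ⟨_, h7⟩
    refine ⟨i₀, ext_onep hi₀ fun ψ hψ => ?_⟩
    obtain ⟨k, hk⟩ := hF _ (hcopy ψ hψ)
    have h1 := hvert ψ hψ a haF
    obtain ⟨w, hw⟩ := hin _ h1
    obtain ⟨w1, w2, _, h2, _⟩ := hk a b hab
    have := hjunc _ h1 _ _ _ _ hw h2
    subst this
    exact hk

/-- The extension step when no copy of `F` touches an end of a piece. -/
lemma step_edge [Finite W] {C D : SimpleGraph W} {a b : W} {q : Fin 3 → W → X}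
    {L : SimpleGraph X} (R : Ring D a b q L) (hDC : D ≤ C)
    (hconn : ∀ x ∈ C.support, ∀ y ∈ C.support, C.Reachable x y)
    {F : SimpleGraph W} (hFC : F ≤ C) (hab : F.Adj a b) (hF : NonCross D q L F)
    (hcop : ∃ ψ : W → W, IsCopy F D ψ)
    (htouch : ¬ ∃ ψ : W → W, IsCopy F D ψ ∧ ∃ u ∈ F.support, ψ u = a ∨ ψ u = b) :
    ∃ F' ≤ C, F'.Adj a b ∧ NonCross D q L F' ∧ F ≤ F' ∧ ¬ F' ≤ F := by
  classical
  have haF : a ∈ F.support := ⟨b, hab⟩
  -- an edge of `C` at the support of `F` which is not in `F`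
  have hex : ∃ u ∈ F.support, ∃ w, C.Adj u w ∧ ¬ F.Adj u w := by
    by_contra hno
    push Not at hno
    -- then `F` contains every vertex of `C`
    have hall : ∀ y, C.Reachable a y → y ∈ F.support := by
      intro y hy
      obtain ⟨p⟩ := hy
      have : ∀ (x z : W) (_ : C.Walk x z), x ∈ F.support → z ∈ F.support := by
        intro x z p
        induction p with
        | nil => exact id
        | cons h p ih =>
          intro hx
          exact ih ⟨_, (hno _ hx _ h).symm⟩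
      exact this a y p haF
    have hsub : ∀ y ∈ C.support, y ∈ F.support := fun y hy =>
      hall y (hconn a ⟨b, hFC hab⟩ y hy)
    obtain ⟨ψ, hψ⟩ := hcop
    let f : F.support → F.support := fun x => ⟨ψ x.1, by
      obtain ⟨x, y, hy⟩ := x
      exact hsub _ ⟨ψ y, hDC (hψ.adj _ _ hy)⟩⟩
    have finj : Function.Injective f := by
      intro x y h
      exact Subtype.ext (hψ.inj _ x.2 _ y.2 (congrArg Subtype.val h))
    obtain ⟨⟨x, hx⟩, h⟩ := Finite.injective_iff_surjective.mp finj ⟨a, haF⟩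
    exact htouch ⟨ψ, hψ, x, hx, Or.inl (congrArg Subtype.val h)⟩
  obtain ⟨u, hu, w, huw, hnF⟩ := hex
  refine ⟨F ⊔ SimpleGraph.edge u w, ?_, Or.inl hab, ?_, le_sup_left, ?_⟩
  · refine sup_le hFC ?_
    rw [SimpleGraph.edge_le_iff]
    exact Or.inr huw
  · intro Ψ hΨ
    obtain ⟨i, hi⟩ := hF Ψ (hΨ.mono le_sup_left)
    obtain ⟨ψ, hψ, hψ'⟩ := onep_copy (R.qinj _) (hΨ.mono le_sup_left) hi
    refine ⟨i, ?_⟩
    have hE : (F ⊔ SimpleGraph.edge u w).Adj u w := by
      right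
      rw [SimpleGraph.edge_adj]
      exact ⟨Or.inl ⟨rfl, rfl⟩, huw.ne⟩
    have hL := hΨ.adj _ _ hE
    obtain ⟨j, v, v', hD, h1, h2⟩ := R.edge _ _ hL
    have hij : i = j ∧ ψ u = v := by
      have h3 := (hψ' u hu).symm.trans h1
      by_cases hij : i = j
      · subst hij
        exact ⟨rfl, R.qinj _ _ _ h3⟩
      · exfalso
        apply htouch
        refine ⟨ψ, hψ, u, hu, ?_⟩
        rcases R.inter _ _ _ _ hij h3 with ⟨h4, _⟩ | ⟨h4, _⟩
        · exact Or.inr h4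
        · exact Or.inl h4
    obtain ⟨rfl, rfl⟩ := hij
    rintro x y (h | h)
    · exact hi x y h
    · rw [SimpleGraph.edge_adj] at h
      rcases h.1 with ⟨rfl, rfl⟩ | ⟨rfl, rfl⟩
      · exact ⟨_, _, hD, h1, h2⟩
      · exact ⟨_, _, hD.symm, h2, h1⟩
  · intro h
    apply hnF
    apply h
    right
    rw [SimpleGraph.edge_adj]
    exact ⟨Or.inl ⟨rfl, rfl⟩, huw.ne⟩

/-- **The ring of three copies of `C - ab` contains no copy of the connected graph `C`.** -/
theorem ring_free [Finite W] {C D : SimpleGraph W} {a b : W} {q : Fin 3 → W → X}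
    {L : SimpleGraph X} (R : Ring D a b q L) (hDC : D ≤ C) (hDab : ¬ D.Adj a b)
    (hab : C.Adj a b)
    (hconn : ∀ x ∈ C.support, ∀ y ∈ C.support, C.Reachable x y) (Φ : W → X) :
    ¬ IsCopy C L Φ := by
  classical
  intro hΦ
  let 𝔽 : Set (SimpleGraph W) := {F | F ≤ C ∧ F.Adj a b ∧ NonCross D q L F}
  have hne : 𝔽.Nonempty := by
    refine ⟨SimpleGraph.edge a b, ?_, ?_, ?_⟩
    · rw [SimpleGraph.edge_le_iff]
      exact Or.inr hab
    · rw [SimpleGraph.edge_adj]
      exact ⟨Or.inl ⟨rfl, rfl⟩, R.ne⟩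
    · intro Ψ hΨ
      have h := hΨ.adj a b (by
        rw [SimpleGraph.edge_adj]
        exact ⟨Or.inl ⟨rfl, rfl⟩, R.ne⟩)
      obtain ⟨i, w, w', h1, h2, h3⟩ := R.edge _ _ h
      refine ⟨i, fun x y hxy => ?_⟩
      rw [SimpleGraph.edge_adj] at hxy
      rcases hxy.1 with ⟨rfl, rfl⟩ | ⟨rfl, rfl⟩
      · exact ⟨w, w', h1, h2, h3⟩
      · exact ⟨w', w, h1.symm, h3, h2⟩
  obtain ⟨F, hF⟩ := (Set.toFinite 𝔽).exists_maximal hne
  obtain ⟨⟨hFC, hFab, hFN⟩, hmax⟩ := hF
  have hcop : ∃ ψ : W → W, IsCopy F D ψ := by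
    obtain ⟨i, hi⟩ := hFN Φ (hΦ.mono hFC)
    obtain ⟨ψ, hψ, _⟩ := onep_copy (R.qinj _) (hΦ.mono hFC) hi
    exact ⟨ψ, hψ⟩
  have hstep : ∃ F' ≤ C, F'.Adj a b ∧ NonCross D q L F' ∧ F ≤ F' ∧ ¬ F' ≤ F := by
    by_cases h1 : Relation.ReflTransGen (TRel D F) a b
    · apply step_conn R hDC hDab hFC hFab hFN
      exact (rtg_reachable h1).symm
    · by_cases h2 : ∃ ψ : W → W, IsCopy F D ψ ∧ ∃ u ∈ F.support, ψ u = a ∨ ψ u = b
      · exact step_sep R hDC hDab hFC hFab hFN h1 h2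
      · exact step_edge R hDC hconn hFC hFab hFN hcop h2
  obtain ⟨F', h1, h2, h3, h4, h5⟩ := hstep
  exact h5 (hmax ⟨h1, h2, h3⟩ h4)

end Pool.Agent.helper63.SAT
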