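import Mathlib
import Pool.Agent.helper63.SAT.RingU

/-!
# The core structure

For every finite edge-ordered graph `G` (vertex set `W`, labels `l`) there is a gluing of three
copies of `G` such that the result contains no copy of `G` together with a lower disjoint edge.
-/

namespace Pool.Agent.helper63.SAT

open SimpleGraph

universe u v

variable {W : Type u}

/-- Order preserving copies. -/
structure OrdCopy {X : Type*} (F : SimpleGraph W) (l : Sym2 W → ℕ) (L : SimpleGraph X)
    (m : Sym2 X → ℕ) (Ψ : W → X) : Prop where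
  copy : IsCopy F L Ψ
  ord : ∀ x y u v, F.Adj x y → F.Adj u v → l s(x, y) < l s(u, v) →
    m s(Ψ x, Ψ y) < m s(Ψ u, Ψ v)

lemma OrdCopy.comp {X Y : Type*} {F : SimpleGraph W} {l : Sym2 W → ℕ} {L : SimpleGraph X}
    {m : Sym2 X → ℕ} {K : SimpleGraph Y} {k : Sym2 Y → ℕ} {Ψ : W → X} {Θ : X → Y}
    (h : OrdCopy F l L m Ψ) (h' : OrdCopy L m K k Θ) : OrdCopy F l K k (Θ ∘ Ψ) :=
  ⟨h.copy.comp h'.copy, fun _ _ _ _ e1 e2 e3 =>
    h'.ord _ _ _ _ (h.copy.adj _ _ e1) (h.copy.adj _ _ e2) (h.ord _ _ _ _ e1 e2 e3)⟩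

/-- The connected component of `w`, as a graph on `W`. -/
def compG (G : SimpleGraph W) (w : W) : SimpleGraph W where
  Adj x y := G.Adj x y ∧ G.Reachable w x
  symm := ⟨by
    rintro x y ⟨h1, h2⟩
    exact ⟨h1.symm, h2.trans h1.reachable⟩⟩
  loopless := ⟨fun x h => h.1.ne rfl⟩

lemma compG_le (G : SimpleGraph W) (w : W) : compG G w ≤ G := fun _ _ h => h.1

lemma compG_congr {G : SimpleGraph W} {w w' : W} (h : G.Reachable w w') :
    compG G w = compG G w' := by
  ext x y
  constructor
  · rintro ⟨h1, h2⟩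
    exact ⟨h1, h.symm.trans h2⟩
  · rintro ⟨h1, h2⟩
    exact ⟨h1, h.trans h2⟩

lemma compG_reach {G : SimpleGraph W} {w : W} {x : W} (h : G.Reachable w x) :
    (compG G w).Reachable w x := by
  obtain ⟨p⟩ := h
  have : ∀ (y z : W) (_ : G.Walk y z), G.Reachable w y → (compG G w).Reachable y z := by
    intro y z p
    induction p with
    | nil => intro _; exact SimpleGraph.Reachable.refl _
    | cons h p ih =>
      intro hy
      have h1 : (compG G w).Adj _ _ := ⟨h, hy⟩
      exact h1.reachable.trans (ih (hy.trans h.reachable))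
  exact this w x p (SimpleGraph.Reachable.refl _)

lemma compG_conn {G : SimpleGraph W} {w : W} :
    ∀ x ∈ (compG G w).support, ∀ y ∈ (compG G w).support, (compG G w).Reachable x y := by
  rintro x ⟨x', hx⟩ y ⟨y', hy⟩
  exact (compG_reach hx.2).symm.trans (compG_reach hy.2)

/-- The gluing map. -/
def glq (g : W → W) (σ : W → Fin 3) (i : Fin 3) (w : W) : W × Fin 3 := (g w, i + σ w)

/-- The gluing data on a set `S`: in some components of `G` the vertex `w` (with `σ w = 1`) of
copy `i` is glued to its neighbour `g w` of copy `i + 1`. -/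
structure Glue (G : SimpleGraph W) (S : Set W) (g : W → W) (σ : W → Fin 3) : Prop where
  s01 : ∀ w, σ w = 0 ∨ σ w = 1
  g0 : ∀ w, σ w = 0 → g w = w
  g1 : ∀ w, σ w = 1 → w ∈ S ∧ G.Adj (g w) w ∧ σ (g w) = 0
  uniq : ∀ w w', σ w = 1 → σ w' = 1 → G.Reachable w w' → w = w'

/-- No copy of `G` restricted to `S` with a lower disjoint edge. -/
def GoodS (G : SimpleGraph W) (l : Sym2 W → ℕ) (S : Set W) (g : W → W) (σ : W → Fin 3) :
    Prop :=
  ∀ m : Sym2 (W × Fin 3) → ℕ,
    (∀ (i : Fin 3) (w w' : W), w ∈ S → G.Adj w w' →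
      m s(glq g σ i w, glq g σ i w') = 3 * l s(w, w') + i) →
    ∀ (i₀ : Fin 3) (u₀ v₀ : W), u₀ ∈ S → G.Adj u₀ v₀ →
    ∀ Ψ : W → W × Fin 3,
    (∀ x ∈ S, x ∈ G.support → ∀ y ∈ S, y ∈ G.support → Ψ x = Ψ y → x = y) →
    (∀ x y, x ∈ S → G.Adj x y → ∃ (i : Fin 3) (w w' : W), w ∈ S ∧ G.Adj w w' ∧
      Ψ x = glq g σ i w ∧ Ψ y = glq g σ i w') →
    (∀ x y u v, x ∈ S → u ∈ S → G.Adj x y → G.Adj u v → l s(x, y) < l s(u, v) →
      m s(Ψ x, Ψ y) < m s(Ψ u, Ψ v)) →
    (∀ x y, x ∈ S → G.Adj x y → m s(glq g σ i₀ u₀, glq g σ i₀ v₀) < m s(Ψ x, Ψ y)) →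
    (∀ x ∈ S, x ∈ G.support → Ψ x ≠ glq g σ i₀ u₀ ∧ Ψ x ≠ glq g σ i₀ v₀) → False

lemma Glue.reach {G : SimpleGraph W} {S : Set W} {g : W → W} {σ : W → Fin 3}
    (h : Glue G S g σ) (w : W) : G.Reachable w (g w) := by
  rcases h.s01 w with h1 | h1
  · rw [h.g0 w h1]
  · exact (h.g1 w h1).2.1.symm.reachable

lemma closed_reach {G : SimpleGraph W} {S : Set W} (hS : ∀ w w', w ∈ S → G.Adj w w' → w' ∈ S)
    {w w' : W} (h : G.Reachable w w') (hw : w ∈ S) : w' ∈ S := by
  obtain ⟨p⟩ := h
  have : ∀ (y z : W) (_ : G.Walk y z), y ∈ S → z ∈ S := by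
    intro y z p
    induction p with
    | nil => exact id
    | cons h p ih => intro hy; exact ih (hS _ _ hy h)
  exact this _ _ p hw

/-- The ring of three copies of `D`, glued along `a`, `b`. -/
def ringq [DecidableEq W] (a b : W) (i : Fin 3) (w : W) : W × Fin 3 :=
  if w = b then (a, i + 1) else (w, i)

def ringL [DecidableEq W] (D : SimpleGraph W) (a b : W) (_hab : a ≠ b) :
    SimpleGraph (W × Fin 3) where
  Adj x y := x ≠ y ∧ ∃ i w w', D.Adj w w' ∧ x = ringq a b i w ∧ y = ringq a b i w'
  symm := ⟨by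
    rintro x y ⟨h0, i, w, w', h1, h2, h3⟩
    exact ⟨h0.symm, i, w', w, h1.symm, h3, h2⟩⟩
  loopless := ⟨fun x h => h.1 rfl⟩

lemma ring_ring [DecidableEq W] (D : SimpleGraph W) {a b : W} (hab : a ≠ b) :
    Ring D a b (ringq a b) (ringL D a b hab) where
  ne := hab
  qinj := by
    intro i w w' h
    unfold ringq at h
    have key : ∀ i : Fin 3, i + 1 ≠ i := by decide
    split_ifs at h with h1 h2 h2
    · rw [h1, h2]
    · exact absurd (congrArg Prod.snd h) (key i)
    · exact absurd (congrArg Prod.snd h).symm (key i)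
    · exact congrArg Prod.fst h
  glue := by
    intro i
    unfold ringq
    rw [if_pos rfl, if_neg hab]
  inter := by
    intro i j w w' hij h
    unfold ringq at h
    split_ifs at h with h1 h2 h2
    · exfalso
      have := congrArg Prod.snd h
      exact hij (add_right_cancel this)
    · left
      exact ⟨h1, (congrArg Prod.fst h).symm, (congrArg Prod.snd h).symm⟩
    · right
      exact ⟨congrArg Prod.fst h, h2, congrArg Prod.snd h⟩
    · exact absurd (congrArg Prod.snd h) hij
  edge := by
    rintro x y ⟨_, i, w, w', h⟩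
    exact ⟨i, w, w', h⟩

/-- The component of `a` has no copy in the ring. -/
lemma comp_ring_free [Finite W] [DecidableEq W] {G : SimpleGraph W} {a b : W}
    (hab : G.Adj a b) (Φ : W → W × Fin 3) :
    ¬ IsCopy (compG G a) (ringL ((compG G a).deleteEdges {s(a, b)}) a b hab.ne) Φ := by
  apply ring_free (ring_ring _ hab.ne) (SimpleGraph.deleteEdges_le _)
  · rw [SimpleGraph.deleteEdges_adj]
    simp
  · exact ⟨hab, SimpleGraph.Reachable.refl _⟩
  · exact compG_conn

/-- The main recursion. -/
theorem exists_glue [Finite W] (G : SimpleGraph W) (l : Sym2 W → ℕ)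
    (linj : ∀ x y u v, G.Adj x y → G.Adj u v → l s(x, y) = l s(u, v) → s(x, y) = s(u, v)) :
    ∀ (n : ℕ) (S : Set W), S.ncard ≤ n → (∀ w w', w ∈ S → G.Adj w w' → w' ∈ S) →
      ∃ (g : W → W) (σ : W → Fin 3), Glue G S g σ ∧ GoodS G l S g σ := by
  classical
  intro n
  induction n with
  | zero =>
    intro S hn _
    have hS : S = ∅ := (Set.ncard_eq_zero (Set.toFinite S)).1 (Nat.le_zero.1 hn)
    subst hS
    refine ⟨id, fun _ => 0, ⟨fun _ => Or.inl rfl, fun _ _ => rfl, fun w h => ?_,
      fun w _ h => ?_⟩, ?_⟩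
    · exact absurd h (by decide)
    · exact absurd h (by decide)
    · intro m _ i₀ u₀ v₀ hu
      exact absurd hu (Set.notMem_empty _)
  | succ n ih =>
    intro S hn hS
    by_cases hE : ∃ k, ∃ x y, x ∈ S ∧ G.Adj x y ∧ l s(x, y) = k
    swap
    · refine ⟨id, fun _ => 0, ⟨fun _ => Or.inl rfl, fun _ _ => rfl, fun w h => ?_,
        fun w _ h => ?_⟩, ?_⟩
      · exact absurd h (by decide)
      · exact absurd h (by decide)
      · intro m _ i₀ u₀ v₀ hu hadj
        exact absurd ⟨_, u₀, v₀, hu, hadj, rfl⟩ hE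
    obtain ⟨k, ⟨a, b, haS, hab, rfl⟩, hmin⟩ : ∃ k, (∃ x y, x ∈ S ∧ G.Adj x y ∧ l s(x, y) = k) ∧
        ∀ j < k, ¬ ∃ x y, x ∈ S ∧ G.Adj x y ∧ l s(x, y) = j :=
      ⟨Nat.find hE, Nat.find_spec hE, fun j hj => Nat.find_min hE hj⟩
    have hmin' : ∀ x y, x ∈ S → G.Adj x y → l s(a, b) ≤ l s(x, y) := by
      intro x y hx hxy
      by_contra h
      exact hmin _ (not_le.1 h) ⟨x, y, hx, hxy, rfl⟩
    have hbS : b ∈ S := hS _ _ haS hab
    -- the recursive set
    let SK : Set W := {w | w ∈ S ∧ ¬ G.Reachable a w ∧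
      ∃ χ : W → W, OrdCopy (compG G a) l (compG G w) l χ}
    have haK : a ∉ SK := fun h => h.2.1 (SimpleGraph.Reachable.refl _)
    have hKS : SK ⊆ S := fun w h => h.1
    have hKclosed : ∀ w w', w ∈ SK → G.Adj w w' → w' ∈ SK := by
      rintro w w' ⟨h1, h2, χ, h3⟩ h
      refine ⟨hS _ _ h1 h, fun h' => h2 (h'.trans h.symm.reachable), χ, ?_⟩
      rw [← compG_congr h.reachable]
      exact h3
    have hcard : SK.ncard ≤ n := by
      have h1 : SK ⊂ S := ⟨hKS, fun h => haK (h haS)⟩
      have := Set.ncard_lt_ncard h1 (Set.toFinite S)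
      omega
    obtain ⟨gK, σK, hGK, hgood⟩ := ih SK hcard hKclosed
    have hKreach : ∀ {w w'}, G.Reachable w w' → w ∈ SK → w' ∈ SK := fun h hw =>
      closed_reach hKclosed h hw
    have hbK : b ∉ SK := fun h => h.2.1 hab.reachable
    have hσKa : σK a = 0 := by
      rcases hGK.s01 a with h | h
      · exact h
      · exact absurd (hGK.g1 a h).1 haK
    have hσKb : σK b = 0 := by
      rcases hGK.s01 b with h | h
      · exact h
      · exact absurd (hGK.g1 b h).1 hbK
    let g : W → W := fun w => if w = b then a else gK w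
    let σ : W → Fin 3 := fun w => if w = b then 1 else σK w
    have gb : g b = a := if_pos rfl
    have σb : σ b = 1 := if_pos rfl
    have gne : ∀ w, w ≠ b → g w = gK w := fun w h => if_neg h
    have σne : ∀ w, w ≠ b → σ w = σK w := fun w h => if_neg h
    have hGlue : Glue G S g σ := by
      refine ⟨fun w => ?_, fun w h => ?_, fun w h => ?_, fun w w' h h' hr => ?_⟩
      · by_cases hw : w = b
        · rw [hw, σb]; exact Or.inr rfl
        · rw [σne w hw]; exact hGK.s01 w
      · by_cases hw : w = b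
        · rw [hw, σb] at h; exact absurd h (by decide)
        · rw [σne w hw] at h; rw [gne w hw]; exact hGK.g0 w h
      · by_cases hw : w = b
        · subst hw
          refine ⟨hbS, ?_, ?_⟩
          · rw [gb]; exact hab
          · rw [gb, σne a hab.ne]; exact hσKa
        · rw [σne w hw] at h
          obtain ⟨h1, h2, h3⟩ := hGK.g1 w h
          rw [gne w hw]
          refine ⟨hKS h1, h2, ?_⟩
          have h4 : gK w ∈ SK := hKclosed _ _ h1 h2.symm
          have h5 : gK w ≠ b := fun h' => hbK (h' ▸ h4)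
          rw [σne _ h5]; exact h3
      · by_cases hw : w = b <;> by_cases hw' : w' = b
        · rw [hw, hw']
        · exfalso
          rw [σne w' hw'] at h'
          apply hbK
          rw [← hw]
          exact hKreach hr.symm (hGK.g1 w' h').1
        · exfalso
          rw [σne w hw] at h
          apply hbK
          rw [← hw']
          exact hKreach hr (hGK.g1 w h).1
        · rw [σne w hw] at h
          rw [σne w' hw'] at h'
          exact hGK.uniq _ _ h h' hr
    refine ⟨g, σ, hGlue, ?_⟩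
    -- on `SK` nothing changed
    have hqK : ∀ (i : Fin 3) (w : W), w ∈ SK → glq g σ i w = glq gK σK i w := by
      intro i w hw
      have h5 : w ≠ b := fun h' => hbK (h' ▸ hw)
      unfold glq
      rw [gne w h5, σne w h5]
    -- on the component of `a` the gluing is the ring
    have hqA : ∀ (i : Fin 3) (w : W), G.Reachable a w → glq g σ i w = ringq a b i w := by
      intro i w hw
      unfold glq ringq
      by_cases hwb : w = b
      · rw [if_pos hwb, hwb, gb, σb]
      · rw [if_neg hwb, gne w hwb, σne w hwb]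
        have : σK w = 0 := by
          rcases hGK.s01 w with h | h
          · exact h
          · exact absurd hw (hGK.g1 w h).1.2.1
        rw [this, hGK.g0 w this, add_zero]
    -- outside of both the three copies are disjoint
    have hqJ : ∀ (i : Fin 3) (w : W), ¬ G.Reachable a w → w ∉ SK → glq g σ i w = (w, i) := by
      intro i w hw hwK
      unfold glq
      have hwb : w ≠ b := fun h => hw (h ▸ hab.reachable)
      have : σK w = 0 := by
        rcases hGK.s01 w with h | h
        · exact h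
        · exact absurd (hGK.g1 w h).1 hwK
      rw [gne w hwb, σne w hwb, this, hGK.g0 w this, add_zero]
    have hfst : ∀ (i : Fin 3) (w : W), G.Reachable w (glq g σ i w).1 := fun i w =>
      hGlue.reach w
    intro m hm i₀ u₀ v₀ hu₀ huv₀ Ψ hinj hadj hord habove hdis
    -- Step 1
    have hstep1 : ∀ (x y : W) (i : Fin 3) (w w' : W), x ∈ S → G.Adj x y → w ∈ S →
        G.Adj w w' → Ψ x = glq g σ i w → Ψ y = glq g σ i w' → s(w, w') ≠ s(a, b) := by
      intro x y i w w' hx hxy hw hww' h1 h2 h3
      have h4 := habove x y hx hxy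
      rw [hm i₀ u₀ v₀ hu₀ huv₀, h1, h2, hm i w w' hw hww', h3] at h4
      have h5 := hmin' u₀ v₀ hu₀ huv₀
      have h6 : l s(u₀, v₀) = l s(a, b) := by
        have := i.2
        omega
      have h7 := linj _ _ _ _ huv₀ hab h6
      rw [h6] at h4
      have h8 : i₀ < i := by
        rw [Fin.lt_def]; omega
      -- the two edges of the triangle meet
      have hX : ∀ j : Fin 3, glq g σ j a = (a, j) ∧ glq g σ j b = (a, j + 1) := by
        intro j
        rw [hqA j a (SimpleGraph.Reachable.refl _), hqA j b hab.reachable]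
        unfold ringq
        rw [if_neg hab.ne, if_pos rfl]
        exact ⟨rfl, rfl⟩
      have hsx : x ∈ G.support := ⟨y, hxy⟩
      have hsy : y ∈ G.support := ⟨x, hxy.symm⟩
      have hyS : y ∈ S := hS _ _ hx hxy
      have key : ∀ i₀ i : Fin 3, i₀ < i → i₀ = i + 1 ∨ i = i₀ + 1 := by decide
      have hd1 := hdis x hx hsx
      have hd2 := hdis y hyS hsy
      rw [h1] at hd1
      rw [h2] at hd2
      rw [Sym2.eq_iff] at h3 h7
      rcases key i₀ i h8 with h9 | h9 <;>
      rcases h3 with ⟨h3, h3'⟩ | ⟨h3, h3'⟩ <;> rcases h7 with ⟨h7, h7'⟩ | ⟨h7, h7'⟩ <;>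
      · rw [h3, h7, h7', (hX _).1, (hX _).2] at hd1
        rw [h3', h7, h7', (hX _).1, (hX _).2] at hd2
        simp only [(hX _).1, (hX _).2, h9] at hd1 hd2
        simp at hd1 hd2
    -- components are mapped into components
    have hconn1 : ∀ x y, x ∈ S → G.Adj x y → G.Reachable (Ψ x).1 (Ψ y).1 := by
      intro x y hx hxy
      obtain ⟨i, w, w', _, h1, h2, h3⟩ := hadj x y hx hxy
      rw [h2, h3]
      exact (hfst i w).symm.trans (h1.reachable.trans (hfst i w'))
    have hconn2 : ∀ x y, x ∈ S → G.Reachable x y → G.Reachable (Ψ x).1 (Ψ y).1 := by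
      intro x y hx hxy
      obtain ⟨p⟩ := hxy
      have : ∀ (y z : W) (_ : G.Walk y z), y ∈ S → G.Reachable (Ψ y).1 (Ψ z).1 := by
        intro y z p
        induction p with
        | nil => intro _; exact SimpleGraph.Reachable.refl _
        | cons h p ih =>
          intro hy
          exact (hconn1 _ _ hy h).trans (ih (hS _ _ hy h))
      exact this _ _ p hx
    have hcompS : ∀ c ∈ S, ∀ x, G.Reachable c x → x ∈ S := fun c hc x hx =>
      closed_reach hS hx hc
    -- Step 2: a component which is mapped into the component of `a`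
    have hstep2 : ∀ c ∈ S, G.Reachable a (Ψ c).1 →
        IsCopy (compG G c) (ringL ((compG G a).deleteEdges {s(a, b)}) a b hab.ne) Ψ := by
      intro c hc hr
      refine ⟨?_, ?_⟩
      · rintro x ⟨x', hx⟩ y ⟨y', hy⟩ h
        exact hinj x (hcompS c hc x hx.2) ⟨x', hx.1⟩ y (hcompS c hc y hy.2) ⟨y', hy.1⟩ h
      · rintro x y ⟨hxy, hcx⟩
        have hxS := hcompS c hc x hcx
        obtain ⟨i, w, w', hw, h1, h2, h3⟩ := hadj x y hxS hxy
        have hne := hstep1 x y i w w' hxS hxy hw h1 h2 h3
        have hrx : G.Reachable a (Ψ x).1 := hr.trans (hconn2 c x hc hcx)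
        have hrw : G.Reachable a w := by
          rw [h2] at hrx
          exact hrx.trans (hfst i w).symm
        have hrw' : G.Reachable a w' := hrw.trans h1.reachable
        refine ⟨?_, i, w, w', ?_, ?_, ?_⟩
        · intro h
          exact hxy.ne (hinj x hxS ⟨y, hxy⟩ y (hS _ _ hxS hxy) ⟨x, hxy.symm⟩ h)
        · rw [SimpleGraph.deleteEdges_adj]
          exact ⟨⟨h1, hrw⟩, by simpa using hne⟩
        · rw [h2, hqA i w hrw]
        · rw [h3, hqA i w' hrw']
    -- a component which is mapped into a component with three disjoint copies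
    have hstepJ : ∀ c ∈ S, c ∈ G.support → ¬ G.Reachable a (Ψ c).1 → (Ψ c).1 ∉ SK →
        OrdCopy (compG G c) l (compG G (Ψ c).1) l (fun x => (Ψ x).1) := by
      intro c hc hcs hr hK
      have hrep : ∀ x y, G.Reachable c x → G.Adj x y → ∃ (i : Fin 3) (w w' : W), w ∈ S ∧
          G.Adj w w' ∧ Ψ x = (w, i) ∧ Ψ y = (w', i) := by
        intro x y hcx hxy
        have hxS := hcompS c hc x hcx
        obtain ⟨i, w, w', hw, h1, h2, h3⟩ := hadj x y hxS hxy
        have h4 : G.Reachable (Ψ c).1 w := by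
          have h5 := hconn2 c x hc hcx
          rw [h2] at h5
          exact h5.trans (hfst i w).symm
        have hwa : ¬ G.Reachable a w := fun h => hr (h.trans h4.symm)
        have hwK : w ∉ SK := fun h => hK (hKreach h4.symm h)
        have hwa' : ¬ G.Reachable a w' := fun h => hwa (h.trans h1.symm.reachable)
        have hwK' : w' ∉ SK := fun h => hwK (hKclosed _ _ h h1.symm)
        refine ⟨i, w, w', hw, h1, ?_, ?_⟩
        · rw [h2, hqJ i w hwa hwK]
        · rw [h3, hqJ i w' hwa' hwK']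
      obtain ⟨i, hi⟩ : ∃ i, (Ψ c).2 = i := ⟨_, rfl⟩
      have hconst : ∀ x, G.Reachable c x → (Ψ x).2 = i := by
        intro x hx
        obtain ⟨p⟩ := hx
        have : ∀ (y z : W) (_ : G.Walk y z), G.Reachable c y → (Ψ y).2 = i →
            (Ψ z).2 = i := by
          intro y z p
          induction p with
          | nil => intro _ h; exact h
          | cons h p ih =>
            intro hcy hy
            apply ih (hcy.trans h.reachable)
            obtain ⟨j, w, w', _, _, h2, h3⟩ := hrep _ _ hcy h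
            rw [h3]
            rw [h2] at hy
            exact hy
        exact this _ _ p (SimpleGraph.Reachable.refl _) hi
      refine ⟨⟨?_, ?_⟩, ?_⟩
      · rintro x ⟨x', hx⟩ y ⟨y', hy⟩ h
        apply hinj x (hcompS c hc x hx.2) ⟨x', hx.1⟩ y (hcompS c hc y hy.2) ⟨y', hy.1⟩
        exact Prod.ext h ((hconst x hx.2).trans (hconst y hy.2).symm)
      · rintro x y ⟨hxy, hcx⟩
        obtain ⟨j, w, w', _, h1, h2, h3⟩ := hrep x y hcx hxy
        refine ⟨?_, ?_⟩
        · rw [h2, h3]; exact h1
        · exact hconn2 c x hc hcx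
      · rintro x y u v ⟨hxy, hcx⟩ ⟨huv, hcu⟩ hlt
        have hxS := hcompS c hc x hcx
        have huS := hcompS c hc u hcu
        have h4 := hord x y u v hxS huS hxy huv hlt
        obtain ⟨j, w, w', hw, h1, h2, h3⟩ := hrep x y hcx hxy
        obtain ⟨j', z, z', hz, h1', h2', h3'⟩ := hrep u v hcu huv
        have hj : j = i := by have := hconst x hcx; rw [h2] at this; exact this
        have hj' : j' = i := by have := hconst u hcu; rw [h2'] at this; exact this
        subst hj
        -- rewrite the labels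
        have hwq : ∀ (x y : W) (w w' : W), G.Reachable c x → x ∈ S → G.Adj x y → w ∈ S →
            G.Adj w w' → Ψ x = (w, j) → Ψ y = (w', j) →
            m s(Ψ x, Ψ y) = 3 * l s(w, w') + j := by
          intro x y w w' hcx hxS hxy hw h1 h2 h3
          have h4 : G.Reachable (Ψ c).1 w := by
            have h5 := hconn2 c x hc hcx
            rw [h2] at h5
            exact h5
          have hwa : ¬ G.Reachable a w := fun h => hr (h.trans h4.symm)
          have hwK : w ∉ SK := fun h => hK (hKreach h4.symm h)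
          have hwa' : ¬ G.Reachable a w' := fun h => hwa (h.trans h1.symm.reachable)
          have hwK' : w' ∉ SK := fun h => hwK (hKclosed _ _ h h1.symm)
          rw [h2, h3, ← hqJ j w hwa hwK, ← hqJ j w' hwa' hwK', hm j w w' hw h1]
        rw [hwq x y w w' hcx hxS hxy hw h1 h2 h3] at h4
        rw [hj'] at h2' h3'
        rw [hwq u v z z' hcu huS huv hz h1' h2' h3'] at h4
        simp only [h2, h3, h2', h3']
        omega
    have haSupp : a ∈ G.support := ⟨b, hab⟩
    have hΨS : ∀ x ∈ S, x ∈ G.support → (Ψ x).1 ∈ S := by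
      rintro x hx ⟨y, hxy⟩
      obtain ⟨i, w, w', hw, h1, h2, h3⟩ := hadj x y hx hxy
      rw [h2]
      exact closed_reach hS (hfst i w) hw
    -- Step 3: the component of `a` goes to `SK`
    have hstep3 : (Ψ a).1 ∈ SK := by
      by_contra hK
      by_cases hr : G.Reachable a (Ψ a).1
      · exact comp_ring_free hab Ψ (hstep2 a haS hr)
      · exact hK ⟨hΨS a haS haSupp, hr, _, hstepJ a haS haSupp hr hK⟩
    -- Step 4: components in `SK` go to `SK`
    have hstep4 : ∀ c ∈ SK, c ∈ G.support → (Ψ c).1 ∈ SK := by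
      intro c hc hcs
      by_contra hK
      obtain ⟨hcS, hca, χ, hχ⟩ := id hc
      by_cases hr : G.Reachable a (Ψ c).1
      · exact comp_ring_free hab _ (hχ.copy.comp (hstep2 c hcS hr))
      · exact hK ⟨hΨS c hcS hcs, hr, _, hχ.comp (hstepJ c hcS hcs hr hK)⟩
    -- Step 5: recursion
    obtain ⟨i, w, w', hw, h1, h2, h3⟩ := hadj a b haS hab
    have hwK : w ∈ SK := by
      rw [h2] at hstep3
      exact hKreach (hfst i w).symm hstep3
    have hwK' : w' ∈ SK := hKclosed _ _ hwK h1
    refine hgood m ?_ i w w' hwK h1 Ψ ?_ ?_ ?_ ?_ ?_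
    · intro j z z' hz hzz'
      rw [← hqK j z hz, ← hqK j z' (hKclosed _ _ hz hzz')]
      exact hm j z z' (hKS hz) hzz'
    · intro x hx hxs y hy hys h
      exact hinj x (hKS hx) hxs y (hKS hy) hys h
    · intro x y hx hxy
      obtain ⟨j, z, z', hz, h4, h5, h6⟩ := hadj x y (hKS hx) hxy
      have h7 := hstep4 x hx ⟨y, hxy⟩
      rw [h5] at h7
      have hzK : z ∈ SK := hKreach (hfst j z).symm h7
      refine ⟨j, z, z', hzK, h4, ?_, ?_⟩
      · rw [h5, hqK j z hzK]
      · rw [h6, hqK j z' (hKclosed _ _ hzK h4)]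
    · intro x y u v hx hu hxy huv hlt
      exact hord x y u v (hKS hx) (hKS hu) hxy huv hlt
    · intro x y hx hxy
      rw [← hqK i w hwK, ← hqK i w' hwK', ← h2, ← h3]
      apply hord a b x y haS (hKS hx) hab hxy
      refine lt_of_le_of_ne (hmin' x y (hKS hx) hxy) fun h => ?_
      have h4 := linj _ _ _ _ hab hxy h
      rw [Sym2.eq_iff] at h4
      rcases h4 with ⟨h5, _⟩ | ⟨_, h5⟩
      · exact haK (h5 ▸ hx)
      · exact hbK (h5 ▸ hx)
    · intro x hx hxs
      rw [← hqK i w hwK, ← hqK i w' hwK', ← h2, ← h3]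
      constructor
      · intro h
        exact haK (hinj x (hKS hx) hxs a haS haSupp h ▸ hx)
      · intro h
        exact hbK (hinj x (hKS hx) hxs b hbS ⟨a, hab.symm⟩ h ▸ hx)

end Pool.Agent.helper63.SAT
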