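import Mathlib
import Pool.Agent.helper63.SAT.Defs

/-!
# Greedy completion
-/

namespace Pool.Agent.helper63.SAT

namespace EOGraph

variable {V W : Type*}

/-- `H'` contains `H` on the same vertex set, with the same order on the edges of `H`. -/
structure Ext (H H' : EOGraph W) : Prop where
  le : H.graph ≤ H'.graph
  lt : ∀ e ∈ H.graph.edgeSet, ∀ e' ∈ H.graph.edgeSet, H.label e < H.label e' →
    H'.label e < H'.label e'

lemma Ext.refl (H : EOGraph W) : Ext H H := ⟨le_rfl, fun _ _ _ _ h => h⟩

lemma Ext.trans {H H' H'' : EOGraph W} (h : Ext H H') (h' : Ext H' H'') : Ext H H'' :=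
  ⟨h.le.trans h'.le, fun e he e' he' hlt =>
    h'.lt e (SimpleGraph.edgeSet_mono h.le he) e' (SimpleGraph.edgeSet_mono h.le he')
      (h.lt e he e' he' hlt)⟩

lemma addMin_graph (H : EOGraph W) (u v : W) :
    (H.addMin u v).graph = H.graph ⊔ SimpleGraph.edge u v := rfl

lemma addMin_label_self (H : EOGraph W) (u v : W) : (H.addMin u v).label s(u, v) = 0 := by
  unfold addMin
  simp

lemma addMin_label_ne (H : EOGraph W) {u v : W} {e : Sym2 W} (h : e ≠ s(u, v)) :
    (H.addMin u v).label e = H.label e + 1 := by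
  unfold addMin
  simp [h]

lemma ne_of_mem {H : EOGraph W} {u v : W} (h : ¬ H.graph.Adj u v) {e : Sym2 W}
    (he : e ∈ H.graph.edgeSet) : e ≠ s(u, v) := by
  rintro rfl
  exact h he

lemma Ext.addMin {H : EOGraph W} {u v : W} (h : ¬ H.graph.Adj u v) :
    Ext H (H.addMin u v) := by
  refine ⟨le_sup_left, fun e he e' he' hlt => ?_⟩
  rw [addMin_label_ne H (ne_of_mem h he), addMin_label_ne H (ne_of_mem h he')]
  omega

/-- Greedy completion inside a set `P` of pairs. -/
theorem greedy [Finite W] (G : EOGraph V) (P : Set (Sym2 W)) :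
    ∀ (n : ℕ) (H : EOGraph W), H.graphᶜ.edgeSet.ncard ≤ n → ¬ Contains G H →
      ∃ H' : EOGraph W, Ext H H' ∧ ¬ Contains G H' ∧
        (∀ u v, u ≠ v → ¬ H'.graph.Adj u v → s(u, v) ∈ P → Contains G (H'.addMin u v)) ∧
        H'.graph.edgeSet ⊆ H.graph.edgeSet ∪ P := by
  classical
  intro n
  induction n with
  | zero =>
    intro H hn hG
    refine ⟨H, Ext.refl H, hG, fun u v huv h _ => ?_, Set.subset_union_left⟩
    exfalso
    have h0 : H.graphᶜ.edgeSet = ∅ :=
      (Set.ncard_eq_zero (Set.toFinite _)).1 (Nat.le_zero.1 hn)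
    have : s(u, v) ∈ H.graphᶜ.edgeSet := by
      rw [SimpleGraph.mem_edgeSet, SimpleGraph.compl_adj]
      exact ⟨huv, h⟩
    rw [h0] at this
    exact this
  | succ n ih =>
    intro H hn hG
    by_cases hex : ∃ u v, u ≠ v ∧ ¬ H.graph.Adj u v ∧ s(u, v) ∈ P ∧
        ¬ Contains G (H.addMin u v)
    · obtain ⟨u, v, huv, hadj, hP, hno⟩ := hex
      have hlt : (H.addMin u v).graphᶜ.edgeSet ⊂ H.graphᶜ.edgeSet := by
        refine ⟨?_, fun hsub => ?_⟩
        · apply SimpleGraph.edgeSet_mono
          rw [compl_le_compl_iff_le]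
          exact le_sup_left
        · have h1 : s(u, v) ∈ H.graphᶜ.edgeSet := by
            rw [SimpleGraph.mem_edgeSet, SimpleGraph.compl_adj]
            exact ⟨huv, hadj⟩
          have h2 := hsub h1
          rw [SimpleGraph.mem_edgeSet, SimpleGraph.compl_adj] at h2
          apply h2.2
          right
          rw [SimpleGraph.edge_adj]
          exact ⟨Or.inl ⟨rfl, rfl⟩, huv⟩
      have hcard := Set.ncard_lt_ncard hlt (Set.toFinite _)
      obtain ⟨H', h1, h2, h3, h4⟩ := ih (H.addMin u v) (by omega) hno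
      refine ⟨H', (Ext.addMin hadj).trans h1, h2, h3, h4.trans ?_⟩
      rintro e (he | he)
      · induction e using Sym2.ind with
        | _ x y =>
          rw [SimpleGraph.mem_edgeSet, addMin_graph, SimpleGraph.sup_adj,
            SimpleGraph.edge_adj] at he
          rcases he with he | ⟨⟨h5, h6⟩ | ⟨h5, h6⟩, _⟩
          · exact Or.inl he
          · right; rw [h5, h6]; exact hP
          · right; rw [h5, h6, Sym2.eq_swap]; exact hP
      · exact Or.inr he
    · push Not at hex
      exact ⟨H, Ext.refl H, hG, fun u v huv h hP => hex u v huv h hP, Set.subset_union_left⟩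

end EOGraph

end Pool.Agent.helper63.SAT
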