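import Mathlib
import Pool.Agent.helper63.SAT.Core
import Pool.Agent.helper63.SAT.Greedy

/-!
# The main theorem: `sat_m(n, G)` is bounded when the minimal edge is isolated
-/

namespace Pool.Agent.helper63.SAT

open SimpleGraph

section glue

variable {W : Type*} {G : SimpleGraph W} {S : Set W} {g : W → W} {σ : W → Fin 3}

lemma Glue.qinj (h : Glue G S g σ) (i : Fin 3) : Function.Injective (glq g σ i) := by
  intro w w' hw
  unfold glq at hw
  have h1 : g w = g w' := congrArg Prod.fst hw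
  have h2 : σ w = σ w' := add_left_cancel (congrArg Prod.snd hw)
  rcases h.s01 w with h3 | h3
  · rw [h.g0 w h3, h.g0 w' (h2 ▸ h3)] at h1
    exact h1
  · have h4 : σ w' = 1 := h2 ▸ h3
    apply h.uniq w w' h3 h4
    have h5 := (h.g1 w h3).2.1.symm.reachable
    have h6 := (h.g1 w' h4).2.1.reachable
    rw [h1] at h5
    exact h5.trans h6

/-- No vertex lies in all three pieces. -/
lemma Glue.avoid (h : Glue G S g σ) (w : W) (p : Fin 3) (u : W) :
    glq g σ (p + 1) u ≠ (w, p) := by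
  intro hu
  have h1 : p + 1 + σ u = p := congrArg Prod.snd hu
  have key : ∀ p : Fin 3, p + 1 + 0 ≠ p ∧ p + 1 + 1 ≠ p := by decide
  rcases h.s01 u with h2 | h2 <;> rw [h2] at h1
  · exact (key p).1 h1
  · exact (key p).2 h1

/-- Each edge comes from exactly one copy. -/
lemma Glue.unique (h : Glue G S g σ) {i j : Fin 3} {w w' u u' : W} (hw : G.Adj w w')
    (hu : G.Adj u u') (he : s(glq g σ i w, glq g σ i w') = s(glq g σ j u, glq g σ j u')) :
    i = j ∧ s(w, w') = s(u, u') := by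
  have main : ∀ {u u' : W}, G.Adj u u' → glq g σ i w = glq g σ j u →
      glq g σ i w' = glq g σ j u' → i = j ∧ w = u ∧ w' = u' := by
    intro u u' hu h1 h2
    have hij : i = j := by
      by_contra hij
      have h3 : i + σ w = j + σ u := congrArg Prod.snd h1
      have h4 : i + σ w' = j + σ u' := congrArg Prod.snd h2
      have key : ∀ i j : Fin 3, i ≠ j → i + 0 = j + 1 → i + 1 = j + 0 → False := by decide
      have key2 : ∀ i j : Fin 3, i ≠ j → i + 0 = j + 0 → False := by decide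
      have key3 : ∀ i j : Fin 3, i ≠ j → i + 1 = j + 1 → False := by decide
      rcases h.s01 w with h5 | h5 <;> rcases h.s01 u with h6 | h6 <;>
      rcases h.s01 w' with h7 | h7 <;> rcases h.s01 u' with h8 | h8 <;>
      rw [h5, h6] at h3 <;> rw [h7, h8] at h4
      all_goals first
        | exact key2 i j hij h3
        | exact key3 i j hij h3
        | exact key2 i j hij h4
        | exact key3 i j hij h4
        | exact key i j hij h3 h4
        | exact key i j hij h4 h3
        | exact hu.ne (h.uniq _ _ h6 h8 hu.reachable)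
        | exact hw.ne (h.uniq _ _ h5 h7 hw.reachable)
    subst hij
    exact ⟨rfl, h.qinj i h1, h.qinj i h2⟩
  rw [Sym2.eq_iff] at he
  rcases he with ⟨h1, h2⟩ | ⟨h1, h2⟩
  · obtain ⟨h3, h4, h5⟩ := main hu h1 h2
    exact ⟨h3, by rw [h4, h5]⟩
  · obtain ⟨h3, h4, h5⟩ := main hu.symm h1 h2
    exact ⟨h3, by rw [h4, h5, Sym2.eq_swap]⟩

end glue

/-- The label of the pair `e` in the core structure. -/
noncomputable def coreLabel {W : Type*} (G : SimpleGraph W) (l : Sym2 W → ℕ) (g : W → W)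
    (σ : W → Fin 3) {n : ℕ} (ι : W × Fin 3 → Fin n) (e : Sym2 (Fin n)) : ℕ := by
  classical
  exact if hx : ∃ k : ℕ, ∃ (i : Fin 3) (w w' : W), G.Adj w w' ∧
    e = s(ι (glq g σ i w), ι (glq g σ i w')) ∧ k = 3 * l s(w, w') + i then hx.choose else 0

lemma coreLabel_eq {W : Type*} {G : SimpleGraph W} {l : Sym2 W → ℕ} {S : Set W} {g : W → W}
    {σ : W → Fin 3} (h : Glue G S g σ) {n : ℕ} {ι : W × Fin 3 → Fin n}
    (hι : Function.Injective ι) (i : Fin 3) {w w' : W} (hw : G.Adj w w') :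
    coreLabel G l g σ ι s(ι (glq g σ i w), ι (glq g σ i w')) = 3 * l s(w, w') + i := by
  classical
  have hx : ∃ k : ℕ, ∃ (j : Fin 3) (u u' : W), G.Adj u u' ∧
      s(ι (glq g σ i w), ι (glq g σ i w')) = s(ι (glq g σ j u), ι (glq g σ j u')) ∧
      k = 3 * l s(u, u') + j := ⟨_, i, w, w', hw, rfl, rfl⟩
  have h1 : coreLabel G l g σ ι s(ι (glq g σ i w), ι (glq g σ i w')) = hx.choose := by
    unfold coreLabel
    rw [dif_pos hx]
  rw [h1]
  obtain ⟨j, u, u', hu, h2, h3⟩ := hx.choose_spec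
  rw [h3]
  have h4 : s(glq g σ i w, glq g σ i w') = s(glq g σ j u, glq g σ j u') := by
    rw [Sym2.eq_iff] at h2 ⊢
    rcases h2 with ⟨h2, h2'⟩ | ⟨h2, h2'⟩
    · exact Or.inl ⟨hι h2, hι h2'⟩
    · exact Or.inr ⟨hι h2, hι h2'⟩
  obtain ⟨h5, h6⟩ := h.unique hw hu h4
  rw [h5, h6]

namespace EOGraph

/-- The core structure, as an edge-ordered graph on `Fin n`. -/
noncomputable def core {W : Type*} (G : SimpleGraph W) (l : Sym2 W → ℕ)
    (linj : ∀ x y u v, G.Adj x y → G.Adj u v → l s(x, y) = l s(u, v) → s(x, y) = s(u, v))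
    {S : Set W} {g : W → W} {σ : W → Fin 3} (h : Glue G S g σ) {n : ℕ}
    (ι : W × Fin 3 ↪ Fin n) : EOGraph (Fin n) where
  graph :=
    { Adj := fun p r => ∃ (i : Fin 3) (w w' : W), G.Adj w w' ∧ p = ι (glq g σ i w) ∧
        r = ι (glq g σ i w')
      symm := ⟨by
        rintro p r ⟨i, w, w', h1, h2, h3⟩
        exact ⟨i, w', w, h1.symm, h3, h2⟩⟩
      loopless := ⟨by
        rintro p ⟨i, w, w', h1, h2, h3⟩
        exact h1.ne (h.qinj i (ι.injective (h2.symm.trans h3)))⟩ }
  label := coreLabel G l g σ ι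
  inj := by
    intro e he e' he' hl
    induction e using Sym2.ind with
    | _ p r =>
    induction e' using Sym2.ind with
    | _ p' r' =>
      obtain ⟨i, w, w', h1, h2, h3⟩ := he
      obtain ⟨j, u, u', h1', h2', h3'⟩ := he'
      change p = _ at h2
      change r = _ at h3
      change p' = _ at h2'
      change r' = _ at h3'
      rw [h2, h3, h2', h3', coreLabel_eq h ι.injective i h1,
        coreLabel_eq h ι.injective j h1'] at hl
      have hi := i.2
      have hj := j.2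
      have hij : (i : ℕ) = j := by omega
      have hll : l s(w, w') = l s(u, u') := by omega
      have h4 := linj _ _ _ _ h1 h1' hll
      have h5 : i = j := Fin.ext hij
      subst h5
      rw [h2, h3, h2', h3', Sym2.eq_iff]
      rw [Sym2.eq_iff] at h4
      rcases h4 with ⟨h4, h6⟩ | ⟨h4, h6⟩
      · left; rw [h4, h6]; exact ⟨rfl, rfl⟩
      · right; rw [h4, h6]; exact ⟨rfl, rfl⟩

variable {V : Type*}

lemma core_free {G : EOGraph V} {a b : V} (hab : G.graph.Adj a b)
    (hmin : ∀ e ∈ G.graph.edgeSet, G.label s(a, b) ≤ G.label e)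
    {G' : SimpleGraph {w : V // w ≠ a ∧ w ≠ b}}
    (hG' : ∀ x y, G'.Adj x y ↔ G.graph.Adj x.1 y.1)
    {l : Sym2 {w : V // w ≠ a ∧ w ≠ b} → ℕ} (hl : ∀ x y, l s(x, y) = G.label s(x.1, y.1))
    (linj : ∀ x y u v, G'.Adj x y → G'.Adj u v → l s(x, y) = l s(u, v) → s(x, y) = s(u, v))
    {g : {w : V // w ≠ a ∧ w ≠ b} → {w : V // w ≠ a ∧ w ≠ b}}
    {σ : {w : V // w ≠ a ∧ w ≠ b} → Fin 3} (h : Glue G' Set.univ g σ)
    (hgood : GoodS G' l Set.univ g σ) {n : ℕ}
    (ι : {w : V // w ≠ a ∧ w ≠ b} × Fin 3 ↪ Fin n) :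
    ¬ Contains G (core G' l linj h ι) := by
  classical
  rintro ⟨f, hf⟩
  have hadj : ∀ x y, G.graph.Adj x y → ∃ (i : Fin 3) (w w' : {w : V // w ≠ a ∧ w ≠ b}),
      G'.Adj w w' ∧ f x = ι (glq g σ i w) ∧ f y = ι (glq g σ i w') := hf.adj
  obtain ⟨i₀, u₀, v₀, huv, hu, hv⟩ := hadj a b hab
  let Ψ : {w : V // w ≠ a ∧ w ≠ b} → {w : V // w ≠ a ∧ w ≠ b} × Fin 3 := fun x =>
    if hx : ∃ y, ι y = f x.1 then hx.choose else (x, 0)
  have hΨ : ∀ x : {w : V // w ≠ a ∧ w ≠ b}, (∃ y, ι y = f x.1) → ι (Ψ x) = f x.1 := by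
    intro x hx
    have h1 : Ψ x = hx.choose := dif_pos hx
    rw [h1]
    exact hx.choose_spec
  have hΨs : ∀ x ∈ G'.support, ι (Ψ x) = f x.1 := by
    rintro x ⟨y, hxy⟩
    apply hΨ
    obtain ⟨i, w, w', _, h1, _⟩ := hadj x.1 y.1 ((hG' x y).1 hxy)
    exact ⟨_, h1.symm⟩
  refine hgood (fun e => (core G' l linj h ι).label (e.map ι)) ?_ i₀ u₀ v₀ (Set.mem_univ _) huv
    Ψ ?_ ?_ ?_ ?_ ?_
  · intro i w w' _ hw
    simp only [Sym2.map_mk]
    exact coreLabel_eq h ι.injective i hw
  · intro x _ hx y _ hy hxy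
    have h1 := hΨs x hx
    rw [hxy, hΨs y hy] at h1
    exact Subtype.ext (hf.injective h1).symm
  · intro x y _ hxy
    obtain ⟨i, w, w', h1, h2, h3⟩ := hadj x.1 y.1 ((hG' x y).1 hxy)
    refine ⟨i, w, w', Set.mem_univ _, h1, ?_, ?_⟩
    · apply ι.injective
      rw [hΨs x ⟨y, hxy⟩, h2]
    · apply ι.injective
      rw [hΨs y ⟨x, hxy.symm⟩, h3]
  · intro x y u v _ _ hxy huv hlt
    simp only [Sym2.map_mk]
    rw [hΨs x ⟨y, hxy⟩, hΨs y ⟨x, hxy.symm⟩, hΨs u ⟨v, huv⟩, hΨs v ⟨u, huv.symm⟩]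
    rw [hl, hl] at hlt
    exact hf.lt s(x.1, y.1) ((hG' x y).1 hxy) s(u.1, v.1) ((hG' u v).1 huv) hlt
  · intro x y _ hxy
    simp only [Sym2.map_mk]
    rw [hΨs x ⟨y, hxy⟩, hΨs y ⟨x, hxy.symm⟩, ← hu, ← hv]
    have hxy' := (hG' x y).1 hxy
    apply hf.lt s(a, b) hab s(x.1, y.1) hxy'
    refine lt_of_le_of_ne (hmin _ hxy') fun he => ?_
    have h1 := G.inj _ hab _ hxy' he
    rw [Sym2.eq_iff] at h1
    rcases h1 with ⟨h1, _⟩ | ⟨_, h1⟩
    · exact x.2.1 h1.symm
    · exact x.2.2 h1.symm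
  · intro x _ hx
    constructor
    · intro hxa
      have h1 := hΨs x hx
      rw [hxa, ← hu] at h1
      exact x.2.1 (hf.injective h1).symm
    · intro hxb
      have h1 := hΨs x hx
      rw [hxb, ← hv] at h1
      exact x.2.2 (hf.injective h1).symm

/-- If an extension `H` of the core is given and the piece `i` avoids `u` and `v`, then `H + uv`
contains `G`. -/
lemma core_copy {G : EOGraph V} {a b : V} (hab : G.graph.Adj a b)
    (hmin : ∀ e ∈ G.graph.edgeSet, G.label s(a, b) ≤ G.label e)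
    (ha : ∀ c, G.graph.Adj a c → c = b) (hb : ∀ c, G.graph.Adj b c → c = a)
    {G' : SimpleGraph {w : V // w ≠ a ∧ w ≠ b}}
    (hG' : ∀ x y, G'.Adj x y ↔ G.graph.Adj x.1 y.1)
    {l : Sym2 {w : V // w ≠ a ∧ w ≠ b} → ℕ} (hl : ∀ x y, l s(x, y) = G.label s(x.1, y.1))
    (linj : ∀ x y u v, G'.Adj x y → G'.Adj u v → l s(x, y) = l s(u, v) → s(x, y) = s(u, v))
    {g : {w : V // w ≠ a ∧ w ≠ b} → {w : V // w ≠ a ∧ w ≠ b}}
    {σ : {w : V // w ≠ a ∧ w ≠ b} → Fin 3} (h : Glue G' Set.univ g σ) {n : ℕ}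
    (ι : {w : V // w ≠ a ∧ w ≠ b} × Fin 3 ↪ Fin n) {H : EOGraph (Fin n)}
    (hH : Ext (core G' l linj h ι) H) {u v : Fin n} (huv : u ≠ v)
    (hnadj : ¬ H.graph.Adj u v) {i : Fin 3} (hu : ∀ w, ι (glq g σ i w) ≠ u)
    (hv : ∀ w, ι (glq g σ i w) ≠ v) : Contains G (H.addMin u v) := by
  classical
  let f : V → Fin n := fun w =>
    if hw : w ≠ a ∧ w ≠ b then ι (glq g σ i ⟨w, hw⟩) else if w = a then u else v
  have hba : b ≠ a := hab.ne.symm
  have fa : f a = u := by
    have h1 : ¬ (a ≠ a ∧ a ≠ b) := fun h => h.1 rfl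
    have : f a = if a = a then u else v := dif_neg h1
    rw [this, if_pos rfl]
  have fb : f b = v := by
    have h1 : ¬ (b ≠ a ∧ b ≠ b) := fun h => h.2 rfl
    have : f b = if b = a then u else v := dif_neg h1
    rw [this, if_neg hba]
  have fw : ∀ w (hw : w ≠ a ∧ w ≠ b), f w = ι (glq g σ i ⟨w, hw⟩) := fun w hw => dif_pos hw
  have hedge : ∀ x y, G.graph.Adj x y → (x = a ∧ y = b) ∨ (x = b ∧ y = a) ∨
      ∃ (hx : x ≠ a ∧ x ≠ b) (hy : y ≠ a ∧ y ≠ b), G'.Adj ⟨x, hx⟩ ⟨y, hy⟩ := by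
    intro x y hxy
    by_cases hxa : x = a
    · left; rw [hxa] at hxy; exact ⟨hxa, ha y hxy⟩
    by_cases hxb : x = b
    · right; left; rw [hxb] at hxy; exact ⟨hxb, hb y hxy⟩
    by_cases hya : y = a
    · rw [hya] at hxy
      exact absurd (ha x hxy.symm) hxb
    by_cases hyb : y = b
    · rw [hyb] at hxy
      exact absurd (hb x hxy.symm) hxa
    right; right
    exact ⟨⟨hxa, hxb⟩, ⟨hya, hyb⟩, (hG' _ _).2 hxy⟩
  refine ⟨f, ⟨?_, ?_, ?_⟩⟩
  · intro x y hxy
    by_cases hx : x ≠ a ∧ x ≠ b <;> by_cases hy : y ≠ a ∧ y ≠ b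
    · rw [fw x hx, fw y hy] at hxy
      exact congrArg Subtype.val (h.qinj i (ι.injective hxy))
    · exfalso
      rw [fw x hx] at hxy
      by_cases hya : y = a
      · rw [hya, fa] at hxy; exact hu _ hxy
      · have hyb : y = b := by by_contra hyb; exact hy ⟨hya, hyb⟩
        rw [hyb, fb] at hxy; exact hv _ hxy
    · exfalso
      rw [fw y hy] at hxy
      by_cases hxa : x = a
      · rw [hxa, fa] at hxy; exact hu _ hxy.symm
      · have hxb : x = b := by by_contra hxb; exact hx ⟨hxa, hxb⟩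
        rw [hxb, fb] at hxy; exact hv _ hxy.symm
    · by_cases hxa : x = a
      · by_cases hya : y = a
        · rw [hxa, hya]
        · have hyb : y = b := by by_contra hyb; exact hy ⟨hya, hyb⟩
          rw [hxa, hyb, fa, fb] at hxy
          exact absurd hxy huv
      · have hxb : x = b := by by_contra hxb; exact hx ⟨hxa, hxb⟩
        by_cases hya : y = a
        · rw [hxb, hya, fa, fb] at hxy
          exact absurd hxy.symm huv
        · have hyb : y = b := by by_contra hyb; exact hy ⟨hya, hyb⟩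
          rw [hxb, hyb]
  · intro x y hxy
    rcases hedge x y hxy with ⟨rfl, rfl⟩ | ⟨rfl, rfl⟩ | ⟨hx, hy, h1⟩
    · rw [fa, fb]
      right
      rw [SimpleGraph.edge_adj]
      exact ⟨Or.inl ⟨rfl, rfl⟩, huv⟩
    · rw [fa, fb]
      right
      rw [SimpleGraph.edge_adj]
      exact ⟨Or.inr ⟨rfl, rfl⟩, huv.symm⟩
    · left
      rw [fw x hx, fw y hy]
      exact hH.le ⟨i, _, _, h1, rfl, rfl⟩
  · intro e he e' he' hlt
    induction e using Sym2.ind with
    | _ x y =>
    induction e' using Sym2.ind with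
    | _ x' y' =>
      have hcore : ∀ x y (hx : x ≠ a ∧ x ≠ b) (hy : y ≠ a ∧ y ≠ b),
          G'.Adj ⟨x, hx⟩ ⟨y, hy⟩ → s(f x, f y) ∈ (core G' l linj h ι).graph.edgeSet ∧
            (core G' l linj h ι).label s(f x, f y) = 3 * G.label s(x, y) + i := by
        intro x y hx hy hxy
        rw [fw x hx, fw y hy]
        refine ⟨⟨i, _, _, hxy, rfl, rfl⟩, ?_⟩
        have := coreLabel_eq (l := l) h ι.injective i hxy
        rw [hl] at this
        exact this
      have hnot : ∀ e ∈ (core G' l linj h ι).graph.edgeSet, e ≠ s(u, v) := fun e he =>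
        ne_of_mem hnadj (SimpleGraph.edgeSet_mono hH.le he)
      have hsab : s(b, a) = s(a, b) := Sym2.eq_swap
      have hmin' : ¬ G.label s(x, y) < G.label s(a, b) := not_lt.2 (hmin _ he)
      simp only [Sym2.map_mk]
      rcases hedge x' y' he' with ⟨h1, h2⟩ | ⟨h1, h2⟩ | ⟨hx', hy', h1'⟩
      · exfalso; rw [h1, h2] at hlt; exact hmin' hlt
      · exfalso; rw [h1, h2, hsab] at hlt; exact hmin' hlt
      obtain ⟨hc', hlab'⟩ := hcore x' y' hx' hy' h1'
      rw [addMin_label_ne H (hnot _ hc')]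
      rcases hedge x y he with ⟨h1, h2⟩ | ⟨h1, h2⟩ | ⟨hx, hy, h1⟩
      · rw [h1, h2, fa, fb, addMin_label_self]; omega
      · rw [h1, h2, fa, fb, Sym2.eq_swap, addMin_label_self]; omega
      · obtain ⟨hc, hlab⟩ := hcore x y hx hy h1
        rw [addMin_label_ne H (hnot _ hc)]
        have := hH.lt _ hc _ hc' (by rw [hlab, hlab']; omega)
        omega

/-- The bound for the saturation number when the minimal edge is isolated. -/
theorem exists_saturated [Finite V] (G : EOGraph V) (hG : MinEdgeIsolated G) (n : ℕ) :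
    ∃ H : EOGraph (Fin n), Saturated G H ∧ H.size ≤ (3 * (Nat.card V - 2)).choose 2 := by
  classical
  have := Fintype.ofFinite V
  obtain ⟨a, b, hab, ha, hb, hmin⟩ := hG
  let X := {w : V // w ≠ a ∧ w ≠ b} × Fin 3
  have hcardX : Fintype.card X = 3 * (Nat.card V - 2) := by
    have h1 : Fintype.card {w : V // w ≠ a ∧ w ≠ b} = Nat.card V - 2 := by
      rw [Nat.card_eq_fintype_card, Fintype.card_subtype]
      have : (Finset.univ.filter fun w : V => w ≠ a ∧ w ≠ b) = Finset.univ \ {a, b} := by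
        ext w
        simp
      rw [this, Finset.card_sdiff_of_subset (Finset.subset_univ _), Finset.card_pair hab.ne,
        Finset.card_univ]
    simp only [X, Fintype.card_prod, Fintype.card_fin, h1]
    ring
  have hsize : ∀ (m : ℕ) (H : SimpleGraph (Fin m)), H.edgeSet.ncard ≤ m.choose 2 := by
    intro m H
    calc H.edgeSet.ncard ≤ (⊤ : SimpleGraph (Fin m)).edgeSet.ncard :=
          Set.ncard_le_ncard (SimpleGraph.edgeSet_mono le_top) (Set.toFinite _)
      _ = m.choose 2 := by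
          rw [← SimpleGraph.coe_edgeFinset, Set.ncard_coe_finset,
            SimpleGraph.card_edgeFinset_top_eq_card_choose_two, Fintype.card_fin]
  rcases Nat.lt_or_ge n (3 * (Nat.card V - 2)) with hn | hn
  · -- few vertices: complete the empty graph
    let H₀ : EOGraph (Fin n) := ⟨⊥, fun _ => 0, fun e he => by simp at he⟩
    have h0 : ¬ Contains G H₀ := by
      rintro ⟨f, hf⟩
      exact hf.adj a b hab
    obtain ⟨H, _, h2, h3, _⟩ := greedy G Set.univ _ H₀ le_rfl h0
    refine ⟨H, ⟨h2, fun u v huv h => h3 u v huv h (Set.mem_univ _)⟩, ?_⟩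
    exact (hsize n H.graph).trans (Nat.choose_le_choose 2 hn.le)
  · -- many vertices
    let G' : SimpleGraph {w : V // w ≠ a ∧ w ≠ b} := G.graph.comap Subtype.val
    let l : Sym2 {w : V // w ≠ a ∧ w ≠ b} → ℕ := fun e => G.label (e.map Subtype.val)
    have hG' : ∀ x y, G'.Adj x y ↔ G.graph.Adj x.1 y.1 := fun x y => Iff.rfl
    have hl : ∀ x y, l s(x, y) = G.label s(x.1, y.1) := fun x y => rfl
    have linj : ∀ x y u v, G'.Adj x y → G'.Adj u v → l s(x, y) = l s(u, v) →
        s(x, y) = s(u, v) := by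
      intro x y u v hxy huv h
      have h1 := G.inj s(x.1, y.1) hxy s(u.1, v.1) huv h
      rw [Sym2.eq_iff] at h1 ⊢
      rcases h1 with ⟨h1, h2⟩ | ⟨h1, h2⟩
      · exact Or.inl ⟨Subtype.ext h1, Subtype.ext h2⟩
      · exact Or.inr ⟨Subtype.ext h1, Subtype.ext h2⟩
    obtain ⟨g, σ, hglue, hgood⟩ := exists_glue G' l linj _ Set.univ le_rfl
      (fun _ _ _ _ => Set.mem_univ _)
    obtain ⟨ι⟩ : Nonempty (X ↪ Fin n) := by
      apply Function.Embedding.nonempty_of_card_le
      rw [hcardX, Fintype.card_fin]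
      exact hn
    have h0 := core_free hab hmin hG' hl linj hglue hgood ι
    obtain ⟨H, h1, h2, h3, h4⟩ := greedy G {e | ∃ x y : X, e = s(ι x, ι y)} _ _ le_rfl h0
    refine ⟨H, ⟨h2, fun u v huv h => ?_⟩, ?_⟩
    · by_cases hu : ∃ x : X, ι x = u
      · obtain ⟨⟨w, p⟩, rfl⟩ := hu
        by_cases hv : ∃ y : X, ι y = v
        · obtain ⟨y, rfl⟩ := hv
          exact h3 _ _ huv h ⟨_, _, rfl⟩
        · refine core_copy hab hmin ha hb hG' hl linj hglue ι h1 huv h (i := p + 1) ?_ ?_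
          · intro w' hw'
            exact hglue.avoid w p w' (ι.injective hw')
          · intro w' hw'
            exact hv ⟨_, hw'⟩
      · by_cases hv : ∃ y : X, ι y = v
        · obtain ⟨⟨w, p⟩, rfl⟩ := hv
          refine core_copy hab hmin ha hb hG' hl linj hglue ι h1 huv h (i := p + 1) ?_ ?_
          · intro w' hw'
            exact hu ⟨_, hw'⟩
          · intro w' hw'
            exact hglue.avoid w p w' (ι.injective hw')
        · refine core_copy hab hmin ha hb hG' hl linj hglue ι h1 huv h (i := 0) ?_ ?_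
          · intro w' hw'
            exact hu ⟨_, hw'⟩
          · intro w' hw'
            exact hv ⟨_, hw'⟩
    · have hsub : H.graph.edgeSet ⊆ Sym2.map ι '' (⊤ : SimpleGraph X).edgeSet := by
        intro e he
        have : ∃ x y : X, e = s(ι x, ι y) := by
          rcases h4 he with h5 | h5
          · induction e using Sym2.ind with
            | _ p r =>
              obtain ⟨i, w, w', _, h6, h7⟩ := h5
              exact ⟨_, _, by rw [show p = _ from h6, show r = _ from h7]⟩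
          · exact h5
        obtain ⟨x, y, rfl⟩ := this
        refine ⟨s(x, y), ?_, rfl⟩
        rw [SimpleGraph.mem_edgeSet, SimpleGraph.top_adj]
        rintro rfl
        exact H.graph.irrefl he
      have := Set.ncard_le_ncard hsub (Set.toFinite _)
      have h5 : (Sym2.map ι '' (⊤ : SimpleGraph X).edgeSet).ncard ≤
          (⊤ : SimpleGraph X).edgeSet.ncard := Set.ncard_image_le (Set.toFinite _)
      have h6 : (⊤ : SimpleGraph X).edgeSet.ncard = (3 * (Nat.card V - 2)).choose 2 := by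
        rw [← hcardX, ← SimpleGraph.coe_edgeFinset, Set.ncard_coe_finset,
          SimpleGraph.card_edgeFinset_top_eq_card_choose_two]
      unfold size
      omega

end EOGraph

end Pool.Agent.helper63.SAT
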