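import Mathlib
import Pool.Agent.helper63.SAT.Defs
import Pool.Agent.helper63.SAT.Greedy

/-!
# Saturation when the minimal edge has an endpoint of degree one

Let `ab` be the minimal edge of `G` and let `a` be the only neighbour of `b`.  A vertex `x` of `H`
is a root if there is a copy of `G - b` in `H` with `a` at `x`.  A pair of two non-roots can always
be added to a graph avoiding `G`.
-/

namespace Pool.Agent.helper63.SAT

namespace EOGraph

variable {V W : Type*}

/-- `f` is a copy of `G - b` in `H`. -/
structure RCopy (G : EOGraph V) (b : V) (H : EOGraph W) (f : V → W) : Prop where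
  inj : ∀ x y, x ≠ b → y ≠ b → f x = f y → x = y
  adj : ∀ x y, x ≠ b → y ≠ b → G.graph.Adj x y → H.graph.Adj (f x) (f y)
  lt : ∀ e ∈ G.graph.edgeSet, ∀ e' ∈ G.graph.edgeSet, b ∉ e → b ∉ e' →
    G.label e < G.label e' → H.label (e.map f) < H.label (e'.map f)

/-- `x` is a root: there is a copy of `G - b` with `a` at `x`. -/
def Root (G : EOGraph V) (a b : V) (H : EOGraph W) (x : W) : Prop :=
  ∃ f : V → W, RCopy G b H f ∧ f a = x

lemma mem_addMin {H : EOGraph W} {u v : W} {e : Sym2 W} (he : e ∈ (H.addMin u v).graph.edgeSet)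
    (hne : e ≠ s(u, v)) : e ∈ H.graph.edgeSet := by
  induction e using Sym2.ind with
  | _ x y =>
    rw [SimpleGraph.mem_edgeSet, addMin_graph, SimpleGraph.sup_adj, SimpleGraph.edge_adj] at he
    rcases he with he | ⟨⟨h1, h2⟩ | ⟨h1, h2⟩, _⟩
    · exact he
    · exact absurd (by rw [h1, h2]) hne
    · exact absurd (by rw [h1, h2, Sym2.eq_swap]) hne

lemma map_edge {G : EOGraph V} {H : EOGraph W} {f : V → W}
    (h : ∀ x y, G.graph.Adj x y → H.graph.Adj (f x) (f y)) {e : Sym2 V}
    (he : e ∈ G.graph.edgeSet) : e.map f ∈ H.graph.edgeSet := by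
  induction e using Sym2.ind with
  | _ x y => exact h x y he

lemma Root.mono {G : EOGraph V} {a b : V} {H H' : EOGraph W} (h : Ext H H') {x : W}
    (hx : Root G a b H x) : Root G a b H' x := by
  obtain ⟨f, hf, hfa⟩ := hx
  refine ⟨f, ⟨hf.inj, fun x y hx hy hxy => h.le (hf.adj x y hx hy hxy), ?_⟩, hfa⟩
  intro e he e' he' hb hb' hlt
  have key : ∀ e ∈ G.graph.edgeSet, b ∉ e → e.map f ∈ H.graph.edgeSet := by
    intro e he hb
    induction e using Sym2.ind with
    | _ x y =>
      rw [Sym2.mem_iff, not_or] at hb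
      exact hf.adj x y (Ne.symm hb.1) (Ne.symm hb.2) he
  exact h.lt _ (key e he hb) _ (key e' he' hb') (hf.lt e he e' he' hb hb' hlt)

lemma RCopy.mono {G : EOGraph V} {b : V} {H H' : EOGraph W} (h : Ext H H') {f : V → W}
    (hf : RCopy G b H f) : RCopy G b H' f := by
  refine ⟨hf.inj, fun x y hx hy hxy => h.le (hf.adj x y hx hy hxy), ?_⟩
  intro e he e' he' hb hb' hlt
  have key : ∀ e ∈ G.graph.edgeSet, b ∉ e → e.map f ∈ H.graph.edgeSet := by
    intro e he hb
    induction e using Sym2.ind with
    | _ x y =>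
      rw [Sym2.mem_iff, not_or] at hb
      exact hf.adj x y (Ne.symm hb.1) (Ne.symm hb.2) he
  exact h.lt _ (key e he hb) _ (key e' he' hb') (hf.lt e he e' he' hb hb' hlt)

/-- The smallest edge of a copy in `H + uv` which uses `uv` goes to `uv`. -/
lemma copy_min {G : EOGraph V} {a b : V} (hab : G.graph.Adj a b)
    (hmin : ∀ e ∈ G.graph.edgeSet, G.label s(a, b) ≤ G.label e) {H : EOGraph W} {u v : W}
    {f : V → W} (hf : Copy G (H.addMin u v) f) {e : Sym2 V} (he : e ∈ G.graph.edgeSet)
    (hef : e.map f = s(u, v)) : e = s(a, b) := by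
  by_contra hne
  have h1 : G.label s(a, b) < G.label e :=
    lt_of_le_of_ne (hmin e he) fun h => hne (G.inj _ hab _ he h).symm
  have h2 := hf.lt s(a, b) hab e he h1
  rw [hef, addMin_label_self] at h2
  exact absurd h2 (Nat.not_lt_zero _)

/-- A pair of two non-roots can be added. -/
lemma addMin_free {G : EOGraph V} {a b : V} (hab : G.graph.Adj a b)
    (hmin : ∀ e ∈ G.graph.edgeSet, G.label s(a, b) ≤ G.label e) {H : EOGraph W}
    (hH : ¬ Contains G H) {u v : W} (hu : ¬ Root G a b H u)
    (hv : ¬ Root G a b H v) : ¬ Contains G (H.addMin u v) := by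
  rintro ⟨f, hf⟩
  by_cases hex : s(f a, f b) = s(u, v)
  · have hmem : ∀ e ∈ G.graph.edgeSet, b ∉ e → e.map f ∈ H.graph.edgeSet ∧
        e.map f ≠ s(u, v) := by
      intro e he hb
      have h1 : e.map f ≠ s(u, v) := by
        intro h
        have := copy_min hab hmin hf he h
        rw [this] at hb
        exact hb (Sym2.mem_mk_right a b)
      exact ⟨mem_addMin (map_edge hf.adj he) h1, h1⟩
    have hR : RCopy G b H f := by
      refine ⟨fun x y _ _ h => hf.injective h, ?_, ?_⟩
      · intro x y hx hy hxy
        exact (hmem s(x, y) hxy (by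
          rw [Sym2.mem_iff, not_or]; exact ⟨Ne.symm hx, Ne.symm hy⟩)).1
      · intro e he e' he' hb hb' hlt
        have h1 := hf.lt e he e' he' hlt
        rw [addMin_label_ne H (hmem e he hb).2, addMin_label_ne H (hmem e' he' hb').2] at h1
        omega
    rw [Sym2.eq_iff] at hex
    rcases hex with ⟨h1, _⟩ | ⟨h1, _⟩
    · exact hu ⟨f, hR, h1⟩
    · exact hv ⟨f, hR, h1⟩
  · apply hH
    have hne : ∀ e ∈ G.graph.edgeSet, e.map f ≠ s(u, v) := by
      intro e he h
      have := copy_min hab hmin hf he h
      rw [this] at h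
      exact hex h
    refine ⟨f, hf.injective, ?_, ?_⟩
    · intro x y hxy
      exact mem_addMin (map_edge hf.adj (e := s(x, y)) hxy) (hne s(x, y) hxy)
    · intro e he e' he' hlt
      have h1 := hf.lt e he e' he' hlt
      rw [addMin_label_ne H (hne e he), addMin_label_ne H (hne e' he')] at h1
      omega

/-- If `u` is a root with a copy which avoids `v`, then `H + uv` contains `G`. -/
lemma contains_of_root {G : EOGraph V} {a b : V} (hab : G.graph.Adj a b)
    (hmin : ∀ e ∈ G.graph.edgeSet, G.label s(a, b) ≤ G.label e)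
    (hleaf : ∀ c, G.graph.Adj b c → c = a) {H : EOGraph W} {u v : W} (huv : u ≠ v)
    (hadj : ¬ H.graph.Adj u v) {f : V → W} (hf : RCopy G b H f) (hfa : f a = u)
    (hv : ∀ x, x ≠ b → f x ≠ v) : Contains G (H.addMin u v) := by
  classical
  have hba : a ≠ b := hab.ne
  have gb : Function.update f b v b = v := Function.update_self _ _ _
  have gn : ∀ x, x ≠ b → Function.update f b v x = f x := fun x hx =>
    Function.update_of_ne hx _ _
  have hmapn : ∀ e : Sym2 V, b ∉ e → e.map (Function.update f b v) = e.map f := by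
    intro e he
    induction e using Sym2.ind with
    | _ x y =>
      rw [Sym2.mem_iff, not_or] at he
      rw [Sym2.map_mk, Sym2.map_mk]
      simp only [gn x (Ne.symm he.1), gn y (Ne.symm he.2)]
  have hedge : ∀ e ∈ G.graph.edgeSet, e = s(a, b) ∨ b ∉ e := by
    intro e he
    induction e using Sym2.ind with
    | _ x y =>
      by_cases hx : x = b
      · left
        rw [hx] at he ⊢
        rw [hleaf y he, Sym2.eq_swap]
      · by_cases hy : y = b
        · left
          rw [hy] at he ⊢
          rw [hleaf x he.symm]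
        · right
          rw [Sym2.mem_iff, not_or]
          exact ⟨Ne.symm hx, Ne.symm hy⟩
  have hfe : ∀ e ∈ G.graph.edgeSet, b ∉ e → e.map f ∈ H.graph.edgeSet := by
    intro e he hb
    induction e using Sym2.ind with
    | _ x y =>
      rw [Sym2.mem_iff, not_or] at hb
      exact hf.adj x y (Ne.symm hb.1) (Ne.symm hb.2) he
  have hgab : (s(a, b) : Sym2 V).map (Function.update f b v) = s(u, v) := by
    rw [Sym2.map_mk]
    simp only [gn a hba, hfa, gb]
  refine ⟨Function.update f b v, ?_, ?_, ?_⟩
  · intro x y hxy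
    by_cases hx : x = b <;> by_cases hy : y = b
    · rw [hx, hy]
    · rw [hx, gb, gn y hy] at hxy
      exact absurd hxy.symm (hv y hy)
    · rw [hy, gb, gn x hx] at hxy
      exact absurd hxy (hv x hx)
    · rw [gn x hx, gn y hy] at hxy
      exact hf.inj x y hx hy hxy
  · intro x y hxy
    rcases hedge s(x, y) hxy with h | h
    · have h1 : s(Function.update f b v x, Function.update f b v y) = s(u, v) := by
        rw [← Sym2.map_mk, h, hgab]
      right
      rw [SimpleGraph.edge_adj]
      rw [Sym2.eq_iff] at h1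
      rcases h1 with ⟨h1, h2⟩ | ⟨h1, h2⟩
      · rw [h1, h2]; exact ⟨Or.inl ⟨rfl, rfl⟩, huv⟩
      · rw [h1, h2]; exact ⟨Or.inr ⟨rfl, rfl⟩, huv.symm⟩
    · left
      rw [Sym2.mem_iff, not_or] at h
      rw [gn x (Ne.symm h.1), gn y (Ne.symm h.2)]
      exact hf.adj x y (Ne.symm h.1) (Ne.symm h.2) hxy
  · intro e he e' he' hlt
    rcases hedge e' he' with h' | h'
    · rw [h'] at hlt
      exact absurd hlt (not_lt.2 (hmin e he))
    · have h3 : e'.map f ≠ s(u, v) := ne_of_mem hadj (hfe e' he' h')
      rcases hedge e he with h | h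
      · rw [h, hgab, addMin_label_self, hmapn e' h', addMin_label_ne H h3]
        omega
      · have h4 : e.map f ≠ s(u, v) := ne_of_mem hadj (hfe e he h)
        rw [hmapn e h, hmapn e' h', addMin_label_ne H h3, addMin_label_ne H h4]
        have := hf.lt e he e' he' h h' hlt
        omega

lemma size_addMin [Finite W] (H : EOGraph W) (u v : W) : (H.addMin u v).size ≤ H.size + 1 := by
  have h1 : (H.addMin u v).graph.edgeSet ⊆ insert s(u, v) H.graph.edgeSet := by
    intro e he
    by_cases h : e = s(u, v)
    · exact Or.inl h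
    · exact Or.inr (mem_addMin he h)
  unfold size
  exact (Set.ncard_le_ncard h1 (Set.toFinite _)).trans (Set.ncard_insert_le _ _)

/-- Building a copy of `G - b` on an independent set of non-roots makes one of them a root. -/
lemma build [Finite V] [Finite W] {G : EOGraph V} {a b : V} (hab : G.graph.Adj a b)
    (hmin : ∀ e ∈ G.graph.edgeSet, G.label s(a, b) ≤ G.label e) {H : EOGraph W}
    (hH : ¬ Contains G H) {j : V → W} (hj : ∀ x y, x ≠ b → y ≠ b → j x = j y → x = y)
    (hind : ∀ x y, x ≠ b → y ≠ b → ¬ H.graph.Adj (j x) (j y)) :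
    ∃ H' : EOGraph W, Ext H H' ∧ ¬ Contains G H' ∧ H'.size ≤ H.size + G.size ∧
      ∃ x, x ≠ b ∧ Root G a b H' (j x) := by
  classical
  have := Fintype.ofFinite V
  let E : Finset (Sym2 V) := Finset.univ.filter fun e => e ∈ G.graph.edgeSet ∧ b ∉ e
  have hE : ∀ e, e ∈ E ↔ e ∈ G.graph.edgeSet ∧ b ∉ e := by
    intro e
    simp only [E, Finset.mem_filter, Finset.mem_univ, true_and]
  have main : ∀ S : Finset (Sym2 V), S ⊆ E → ∃ H' : EOGraph W, Ext H H' ∧ ¬ Contains G H' ∧
      H'.size ≤ H.size + S.card ∧ ((∃ x, x ≠ b ∧ Root G a b H' (j x)) ∨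
        ((∀ x y, x ≠ b → y ≠ b → (H'.graph.Adj (j x) (j y) ↔ s(x, y) ∈ S)) ∧
          ∀ e ∈ S, ∀ e' ∈ S, G.label e < G.label e' →
            H'.label (e.map j) < H'.label (e'.map j))) := by
    intro S
    induction S using Finset.induction_on_min_value G.label with
    | empty =>
      intro _
      refine ⟨H, Ext.refl H, hH, by simp, Or.inr ⟨fun x y hx hy => ?_, ?_⟩⟩
      · constructor
        · intro h; exact absurd h (hind x y hx hy)
        · intro h; exact absurd h (Finset.notMem_empty _)
      · intro e he; exact absurd he (Finset.notMem_empty _)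
    | insert e S heS hle ih =>
      intro hsub
      obtain ⟨H', h1, h2, h3, h4⟩ := ih ((Finset.subset_insert _ _).trans hsub)
      have hcard : (insert e S).card = S.card + 1 := Finset.card_insert_of_notMem heS
      rcases h4 with h4 | ⟨h4, h5⟩
      · exact ⟨H', h1, h2, by omega, Or.inl h4⟩
      · by_cases hr : ∃ x, x ≠ b ∧ Root G a b H' (j x)
        · exact ⟨H', h1, h2, by omega, Or.inl hr⟩
        · have heE := (hE e).1 (hsub (Finset.mem_insert_self _ _))
          have hSE : ∀ e' ∈ S, e' ∈ G.graph.edgeSet ∧ b ∉ e' := fun e' he' =>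
            (hE e').1 (hsub (Finset.mem_insert_of_mem he'))
          induction e using Sym2.ind with
          | _ x y =>
            obtain ⟨hxy, hb⟩ := heE
            rw [SimpleGraph.mem_edgeSet] at hxy
            rw [Sym2.mem_iff, not_or] at hb
            have hx : x ≠ b := Ne.symm hb.1
            have hy : y ≠ b := Ne.symm hb.2
            have hnadj : ¬ H'.graph.Adj (j x) (j y) := fun h => heS ((h4 x y hx hy).1 h)
            have hne : j x ≠ j y := fun h => hxy.ne (hj x y hx hy h)
            have hfree := addMin_free hab hmin h2 (u := j x) (v := j y)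
              (fun h => hr ⟨x, hx, h⟩) (fun h => hr ⟨y, hy, h⟩)
            have hs2 : ∀ z w, z ≠ b → w ≠ b → (s(j z, j w) = s(j x, j y) ↔ s(z, w) = s(x, y)) := by
              intro z w hz hw
              rw [Sym2.eq_iff, Sym2.eq_iff]
              constructor
              · rintro (⟨h, h'⟩ | ⟨h, h'⟩)
                · exact Or.inl ⟨hj _ _ hz hx h, hj _ _ hw hy h'⟩
                · exact Or.inr ⟨hj _ _ hz hy h, hj _ _ hw hx h'⟩
              · rintro (⟨h, h'⟩ | ⟨h, h'⟩)
                · exact Or.inl ⟨by rw [h], by rw [h']⟩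
                · exact Or.inr ⟨by rw [h], by rw [h']⟩
            refine ⟨H'.addMin (j x) (j y), h1.trans (Ext.addMin hnadj), hfree, ?_, Or.inr ⟨?_, ?_⟩⟩
            · have := size_addMin H' (j x) (j y)
              omega
            · intro z w hz hw
              rw [Finset.mem_insert, ← h4 z w hz hw, addMin_graph, SimpleGraph.sup_adj,
                SimpleGraph.edge_adj, ← hs2 z w hz hw, Sym2.eq_iff]
              constructor
              · rintro (h | ⟨h | h, _⟩)
                · exact Or.inr h
                · exact Or.inl (Or.inl h)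
                · exact Or.inl (Or.inr h)
              · rintro ((h | h) | h)
                · refine Or.inr ⟨Or.inl h, ?_⟩
                  rw [h.1, h.2]; exact hne
                · refine Or.inr ⟨Or.inr h, ?_⟩
                  rw [h.1, h.2]; exact hne.symm
                · exact Or.inl h
            · have hmapne : ∀ e' ∈ S, e'.map j ≠ s(j x, j y) := by
                intro e' he' h
                obtain ⟨h6, h7⟩ := hSE e' he'
                induction e' using Sym2.ind with
                | _ z w =>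
                  rw [Sym2.mem_iff, not_or] at h7
                  rw [Sym2.map_mk] at h
                  have := (hs2 z w (Ne.symm h7.1) (Ne.symm h7.2)).1 h
                  rw [this] at he'
                  exact heS he'
              intro e₁ he₁ e₂ he₂ hlt
              rw [Finset.mem_insert] at he₁ he₂
              rcases he₂ with he₂ | he₂
              · rw [he₂] at hlt
                rcases he₁ with he₁ | he₁
                · rw [he₁] at hlt; exact absurd hlt (lt_irrefl _)
                · exact absurd hlt (not_lt.2 (hle e₁ he₁))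
              · rw [addMin_label_ne H' (hmapne e₂ he₂)]
                rcases he₁ with he₁ | he₁
                · rw [he₁, Sym2.map_mk]
                  simp only [addMin_label_self]
                  omega
                · rw [addMin_label_ne H' (hmapne e₁ he₁)]
                  have := h5 e₁ he₁ e₂ he₂ hlt
                  omega
  obtain ⟨H', h1, h2, h3, h4⟩ := main E (Finset.Subset.refl _)
  have hEG : E.card ≤ G.size := by
    unfold size
    rw [← Set.ncard_coe_finset]
    apply Set.ncard_le_ncard _ (Set.toFinite _)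
    intro e he
    exact ((hE e).1 (by simpa using he)).1
  refine ⟨H', h1, h2, by omega, ?_⟩
  rcases h4 with h4 | ⟨h4, h5⟩
  · exact h4
  · refine ⟨a, hab.ne, j, ⟨hj, ?_, ?_⟩, rfl⟩
    · intro x y hx hy hxy
      rw [h4 x y hx hy, hE]
      refine ⟨hxy, ?_⟩
      rw [Sym2.mem_iff, not_or]
      exact ⟨Ne.symm hx, Ne.symm hy⟩
    · intro e he e' he' hb hb' hlt
      exact h5 e ((hE e).2 ⟨he, hb⟩) e' ((hE e').2 ⟨he', hb'⟩) hlt

/-- The building phase. -/
lemma phase [Finite V] [Finite W] {G : EOGraph V} {a b : V} (hab : G.graph.Adj a b)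
    (hmin : ∀ e ∈ G.graph.edgeSet, G.label s(a, b) ≤ G.label e) :
    ∀ (k : ℕ) (H : EOGraph W), ¬ Contains G H → {x | ¬ Root G a b H x}.ncard ≤ k →
      ∃ H' : EOGraph W, Ext H H' ∧ ¬ Contains G H' ∧ H'.size ≤ H.size + k * G.size ∧
        ¬ ∃ j : V → W, (∀ x y, x ≠ b → y ≠ b → j x = j y → x = y) ∧
          (∀ x y, x ≠ b → y ≠ b → ¬ H'.graph.Adj (j x) (j y)) ∧
          ∀ x, x ≠ b → ¬ Root G a b H' (j x) := by
  intro k
  induction k with
  | zero =>
    intro H hH hk
    refine ⟨H, Ext.refl H, hH, by omega, ?_⟩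
    rintro ⟨j, _, _, h3⟩
    have h0 := (Set.ncard_eq_zero (Set.toFinite _)).1 (Nat.le_zero.1 hk)
    have : j a ∈ {x | ¬ Root G a b H x} := h3 a hab.ne
    rw [h0] at this
    exact this
  | succ k ih =>
    intro H hH hk
    by_cases hex : ∃ j : V → W, (∀ x y, x ≠ b → y ≠ b → j x = j y → x = y) ∧
          (∀ x y, x ≠ b → y ≠ b → ¬ H.graph.Adj (j x) (j y)) ∧
          ∀ x, x ≠ b → ¬ Root G a b H (j x)
    · obtain ⟨j, h1, h2, h3⟩ := hex
      obtain ⟨H₁, e1, e2, e3, x, hx, e4⟩ := build hab hmin hH h1 h2
      have hlt : {x | ¬ Root G a b H₁ x} ⊂ {x | ¬ Root G a b H x} := by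
        refine ⟨fun y hy hyr => hy (hyr.mono e1), fun hsub => ?_⟩
        exact hsub (h3 x hx) e4
      have := Set.ncard_lt_ncard hlt (Set.toFinite _)
      obtain ⟨H', f1, f2, f3, f4⟩ := ih H₁ e2 (by omega)
      refine ⟨H', e1.trans f1, f2, ?_, f4⟩
      calc H'.size ≤ H₁.size + k * G.size := f3
        _ ≤ H.size + (k + 1) * G.size := by
          rw [Nat.add_mul, Nat.one_mul]; omega
    · exact ⟨H, Ext.refl H, hH, Nat.le_add_right _ _, hex⟩

end EOGraph

end Pool.Agent.helper63.SAT
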