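import Mathlib
import Pool.Agent.helper63.SAT.Pend

/-!
# Saturation when the minimal edge has an endpoint of degree one: the linear bound
-/

namespace Pool.Agent.helper63.SAT

namespace EOGraph

variable {V W : Type*}

/-- A weak form of Turan's theorem: a set without large independent subsets spans many edges. -/
lemma turan [Finite W] (Hg : SimpleGraph W) (r : ℕ) : ∀ (k : ℕ) (A : Finset W), A.card ≤ k →
    (∀ I : Finset W, I ⊆ A → (∀ x ∈ I, ∀ y ∈ I, ¬ Hg.Adj x y) → I.card ≤ r) →
    A.card * A.card ≤ r * A.card + 2 * r * {e | e ∈ Hg.edgeSet ∧ ∀ x ∈ e, x ∈ A}.ncard := by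
  classical
  intro k
  induction k with
  | zero =>
    intro A hA _
    have : A.card = 0 := Nat.le_zero.1 hA
    rw [this]; simp
  | succ k ih =>
    intro A hA hI
    rcases A.eq_empty_or_nonempty with h0 | ⟨v₀, hv₀⟩
    · rw [h0]; simp
    -- an independent subset of largest size
    let F : Finset (Finset W) := A.powerset.filter fun I => ∀ x ∈ I, ∀ y ∈ I, ¬ Hg.Adj x y
    have hF : ∀ I, I ∈ F ↔ I ⊆ A ∧ ∀ x ∈ I, ∀ y ∈ I, ¬ Hg.Adj x y := by
      intro I
      simp only [F, Finset.mem_filter, Finset.mem_powerset]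
    obtain ⟨I, hIF, hmax⟩ := Finset.exists_max_image F Finset.card
      ⟨∅, (hF ∅).2 ⟨Finset.empty_subset _, fun x hx => absurd hx (Finset.notMem_empty _)⟩⟩
    obtain ⟨hIA, hind⟩ := (hF I).1 hIF
    have hIr : I.card ≤ r := hI I hIA hind
    have hI1 : 1 ≤ I.card := by
      have h1 : {v₀} ∈ F := by
        rw [hF]
        refine ⟨Finset.singleton_subset_iff.2 hv₀, ?_⟩
        intro x hx y hy
        rw [Finset.mem_singleton] at hx hy
        rw [hx, hy]
        exact Hg.irrefl
      simpa using hmax _ h1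
    have hsplit : (A \ I).card + I.card = A.card := Finset.card_sdiff_add_card_eq_card hIA
    have ih' := ih (A \ I) (by omega) (fun J hJ hJi => hI J (hJ.trans Finset.sdiff_subset) hJi)
    -- each vertex outside has a neighbour in `I`
    have hnb : ∀ v, v ∈ A \ I → ∃ i ∈ I, Hg.Adj v i := by
      intro v hv
      rw [Finset.mem_sdiff] at hv
      by_contra hno
      push Not at hno
      have h1 : insert v I ∈ F := by
        rw [hF]
        refine ⟨Finset.insert_subset hv.1 hIA, ?_⟩
        intro x hx y hy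
        rw [Finset.mem_insert] at hx hy
        rcases hx with hx | hx <;> rcases hy with hy | hy
        · rw [hx, hy]; exact Hg.irrefl
        · rw [hx]; exact hno y hy
        · rw [hy]; exact fun h => hno x hx h.symm
        · exact hind x hx y hy
      have h2 := hmax _ h1
      rw [Finset.card_insert_of_notMem hv.2] at h2
      omega
    choose! g hg1 hg2 using hnb
    have hE : {e | e ∈ Hg.edgeSet ∧ ∀ x ∈ e, x ∈ A \ I}.ncard + (A \ I).card ≤
        {e | e ∈ Hg.edgeSet ∧ ∀ x ∈ e, x ∈ A}.ncard := by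
      have h1 : ((fun v => s(v, g v)) '' (↑(A \ I) : Set W)).ncard = (A \ I).card := by
        rw [Set.InjOn.ncard_image, Set.ncard_coe_finset]
        intro v hv v' hv' h
        have hv2 := hv
        have hv2' := hv'
        rw [Finset.mem_coe, Finset.mem_sdiff] at hv2 hv2'
        have h' : s(v, g v) = s(v', g v') := h
        rw [Sym2.eq_iff] at h'
        rcases h' with ⟨h', _⟩ | ⟨h', _⟩
        · exact h'
        · exact absurd (h' ▸ hg1 v' (Finset.mem_coe.1 hv')) hv2.2
      rw [← h1, ← Set.ncard_union_eq _ (Set.toFinite _) (Set.toFinite _)]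
      · apply Set.ncard_le_ncard _ (Set.toFinite _)
        rintro e (⟨he1, he2⟩ | ⟨v, hv, rfl⟩)
        · exact ⟨he1, fun x hx => (Finset.mem_sdiff.1 (he2 x hx)).1⟩
        · refine ⟨hg2 v hv, ?_⟩
          intro x hx
          rcases Sym2.mem_iff.1 hx with rfl | rfl
          · exact (Finset.mem_sdiff.1 (Finset.mem_coe.1 hv)).1
          · exact hIA (hg1 v hv)
      · rw [Set.disjoint_left]
        rintro e ⟨_, he2⟩ ⟨v, hv, rfl⟩
        exact (Finset.mem_sdiff.1 (he2 (g v) (Sym2.mem_mk_right _ _))).2 (hg1 v hv)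
    -- arithmetic
    generalize {e | e ∈ Hg.edgeSet ∧ ∀ x ∈ e, x ∈ A \ I}.ncard = e' at ih' hE
    generalize {e | e ∈ Hg.edgeSet ∧ ∀ x ∈ e, x ∈ A}.ncard = e at hE ⊢
    generalize (A \ I).card = w' at *
    generalize I.card = s at *
    rw [← hsplit]
    have h3 : 2 * r * (e' + w') ≤ 2 * r * e := Nat.mul_le_mul_left _ hE
    have h4 : s * w' ≤ r * w' := Nat.mul_le_mul_right _ hIr
    have h5 : s * s ≤ r * s := Nat.mul_le_mul_right _ hIr
    nlinarith

lemma exists_nonedge_map {b : V} [Finite V] {I : Finset W}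
    (hI : Nat.card V ≤ I.card) : ∃ j : V → W, (∀ x y, x ≠ b → y ≠ b → j x = j y → x = y) ∧
      ∀ x, x ≠ b → j x ∈ I := by
  classical
  have := Fintype.ofFinite V
  obtain ⟨φ⟩ : Nonempty (V ↪ I) := by
    apply Function.Embedding.nonempty_of_card_le
    rw [Fintype.card_coe, ← Nat.card_eq_fintype_card]
    exact hI
  exact ⟨fun x => (φ x).1, fun x y _ _ h => φ.injective (Subtype.ext h), fun x _ => (φ x).2⟩

/-- The linear bound for the saturation number when the minimal edge has an endpoint of degree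
one. -/
theorem exists_saturated_pendant [Finite V] (G : EOGraph V) {a b : V} (hab : G.graph.Adj a b)
    (hmin : ∀ e ∈ G.graph.edgeSet, G.label s(a, b) ≤ G.label e)
    (hleaf : ∀ c, G.graph.Adj b c → c = a) (n : ℕ) :
    ∃ H : EOGraph (Fin n), Saturated G H ∧
      H.size ≤ (2 * Nat.card V + 1) * (G.size + 1) * n := by
  classical
  have := Fintype.ofFinite V
  let H₀ : EOGraph (Fin n) := ⟨⊥, fun _ => 0, fun e he => by simp at he⟩
  have h0 : ¬ Contains G H₀ := by
    rintro ⟨f, hf⟩
    exact hf.adj a b hab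
  have h0s : H₀.size = 0 := by
    unfold size
    simp [H₀]
  have hn0 : ∀ S : Set (Fin n), S.ncard ≤ n := by
    intro S
    have := Set.ncard_le_ncard (Set.subset_univ S) (Set.toFinite _)
    rwa [Set.ncard_univ, Nat.card_eq_fintype_card, Fintype.card_fin] at this
  obtain ⟨H₁, _, f2, f3, f4⟩ := phase hab hmin n H₀ h0 (hn0 _)
  rw [h0s, Nat.zero_add] at f3
  -- the set of non-roots
  let N : Finset (Fin n) := Finset.univ.filter fun x => ¬ Root G a b H₁ x
  have hN : ∀ x, x ∈ N ↔ ¬ Root G a b H₁ x := by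
    intro x
    simp only [N, Finset.mem_filter, Finset.mem_univ, true_and]
  have hNn : N.card ≤ n := by
    have := Finset.card_le_univ N
    rwa [Fintype.card_fin] at this
  have hNI : ∀ I : Finset (Fin n), I ⊆ N → (∀ x ∈ I, ∀ y ∈ I, ¬ H₁.graph.Adj x y) →
      I.card ≤ Nat.card V := by
    intro I hIN hind
    by_contra hlt
    push Not at hlt
    obtain ⟨j, hj1, hj2⟩ := exists_nonedge_map (V := V) (b := b) hlt.le
    exact f4 ⟨j, hj1, fun x y hx hy => hind _ (hj2 x hx) _ (hj2 y hy),
      fun x hx => (hN _).1 (hIN (hj2 x hx))⟩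
  have hT := turan H₁.graph (Nat.card V) n N hNn hNI
  have hE1 : {e | e ∈ H₁.graph.edgeSet ∧ ∀ x ∈ e, x ∈ N}.ncard ≤ H₁.size :=
    Set.ncard_le_ncard (fun e he => he.1) (Set.toFinite _)
  -- copies at the roots
  have hroot : ∀ x, ∃ f : V → Fin n, Root G a b H₁ x → RCopy G b H₁ f ∧ f a = x := by
    intro x
    by_cases hx : Root G a b H₁ x
    · obtain ⟨f, hf⟩ := hx
      exact ⟨f, fun _ => hf⟩
    · exact ⟨fun _ => x, fun h => absurd h hx⟩
  choose F hF using hroot
  let P : Set (Sym2 (Fin n)) := (fun p : Fin n × Fin n => s(p.1, p.2)) '' (↑(N ×ˢ N) : Set _) ∪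
    (fun p : Fin n × V => s(p.1, F p.1 p.2)) '' Set.univ
  have hP : P.ncard ≤ N.card * N.card + n * Nat.card V := by
    refine (Set.ncard_union_le _ _).trans (Nat.add_le_add ?_ ?_)
    · refine (Set.ncard_image_le (Set.toFinite _)).trans ?_
      rw [Set.ncard_coe_finset, Finset.card_product]
    · refine (Set.ncard_image_le (Set.toFinite _)).trans ?_
      rw [Set.ncard_univ, Nat.card_prod, Nat.card_eq_fintype_card, Fintype.card_fin]
  obtain ⟨H, g1, g2, g3, g4⟩ := greedy G P _ H₁ le_rfl f2
  refine ⟨H, ⟨g2, ?_⟩, ?_⟩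
  · intro u v huv hadj
    by_cases hPuv : s(u, v) ∈ P
    · exact g3 u v huv hadj hPuv
    · have huvN : ¬ (u ∈ N ∧ v ∈ N) := by
        rintro ⟨hu, hv⟩
        apply hPuv
        left
        exact ⟨(u, v), by rw [Finset.mem_coe, Finset.mem_product]; exact ⟨hu, hv⟩, rfl⟩
      by_cases hu : u ∈ N
      · have hv : v ∉ N := fun hv => huvN ⟨hu, hv⟩
        rw [hN, not_not] at hv
        obtain ⟨h1, h2⟩ := hF v hv
        have hc := contains_of_root hab hmin hleaf (H := H) (u := v) (v := u) huv.symm
          (fun h => hadj h.symm) (h1.mono g1) h2 (by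
            intro x _ hx
            apply hPuv
            right
            exact ⟨(v, x), Set.mem_univ _, by rw [← hx, Sym2.eq_swap]⟩)
        have hsw : H.addMin v u = H.addMin u v := by
          have hsv : s(v, u) = s(u, v) := Sym2.eq_swap
          unfold addMin
          congr 1
          · rw [SimpleGraph.edge_comm]
          · rw [hsv]
        rwa [hsw] at hc
      · rw [hN, not_not] at hu
        obtain ⟨h1, h2⟩ := hF u hu
        exact contains_of_root hab hmin hleaf huv hadj (h1.mono g1) h2 (by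
          intro x _ hx
          apply hPuv
          right
          exact ⟨(u, x), Set.mem_univ _, by rw [← hx]⟩)
  · have h5 : H.size ≤ H₁.size + P.ncard := by
      unfold size
      exact (Set.ncard_le_ncard g4 (Set.toFinite _)).trans (Set.ncard_union_le _ _)
    have h6 : Nat.card V * N.card ≤ Nat.card V * n := Nat.mul_le_mul_left _ hNn
    have h7 : 2 * Nat.card V * {e | e ∈ H₁.graph.edgeSet ∧ ∀ x ∈ e, x ∈ N}.ncard ≤
        2 * Nat.card V * (n * G.size) := Nat.mul_le_mul_left _ (hE1.trans f3)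
    calc H.size ≤ n * G.size + (Nat.card V * n + 2 * Nat.card V * (n * G.size) +
          n * Nat.card V) := by omega
      _ ≤ (2 * Nat.card V + 1) * (G.size + 1) * n := by nlinarith [Nat.zero_le n]

/-- If the minimal edge is not isolated, then a semisaturated graph has at most one isolated
vertex. -/
lemma semisat_size {G : EOGraph V} {a b : V} (hab : G.graph.Adj a b)
    (hmin : ∀ e ∈ G.graph.edgeSet, G.label s(a, b) ≤ G.label e)
    (hdeg : (∃ c, c ≠ b ∧ G.graph.Adj a c) ∨ ∃ c, c ≠ a ∧ G.graph.Adj b c) {n : ℕ}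
    {H : EOGraph (Fin n)} (hH : SemiSaturated G H) : n ≤ 2 * H.size + 1 := by
  classical
  let Z : Finset (Fin n) := Finset.univ.filter fun x => ∀ y, ¬ H.graph.Adj x y
  have hZ : Z.card ≤ 1 := by
    rw [Finset.card_le_one]
    intro u hu v hv
    by_contra huv
    simp only [Z, Finset.mem_filter, Finset.mem_univ, true_and] at hu hv
    obtain ⟨f, hf, e, he, hef⟩ := hH u v huv (hu v)
    have heab := copy_min hab hmin hf he hef
    rw [heab, Sym2.map_mk] at hef
    have key : ∀ c d, G.graph.Adj c d → s(c, d) ≠ s(a, b) → f c = u ∨ f c = v → False := by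
      intro c d hcd hne hc
      have h1 : s(f c, f d) ≠ s(u, v) := by
        intro h
        exact hne (copy_min hab hmin hf (e := s(c, d)) hcd h)
      have h2 : H.graph.Adj (f c) (f d) :=
        mem_addMin (map_edge hf.adj (e := s(c, d)) hcd) h1
      rcases hc with hc | hc
      · rw [hc] at h2; exact hu _ h2
      · rw [hc] at h2; exact hv _ h2
    have hfab : (f a = u ∨ f a = v) ∧ (f b = u ∨ f b = v) := by
      have h := hef
      rw [Sym2.eq_iff] at h
      rcases h with ⟨h1, h2⟩ | ⟨h1, h2⟩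
      · exact ⟨Or.inl h1, Or.inr h2⟩
      · exact ⟨Or.inr h1, Or.inl h2⟩
    rcases hdeg with ⟨c, hc, hac⟩ | ⟨c, hc, hbc⟩
    · refine key a c hac ?_ hfab.1
      intro h
      rw [Sym2.eq_iff] at h
      rcases h with ⟨_, h⟩ | ⟨h, h'⟩
      · exact hc h
      · exact hab.ne h
    · refine key b c hbc ?_ hfab.2
      intro h
      rw [Sym2.eq_iff] at h
      rcases h with ⟨h, _⟩ | ⟨_, h⟩
      · exact hab.ne h.symm
      · exact hc h
  -- the other vertices are covered by the edges
  let E : Finset (Sym2 (Fin n)) := Finset.univ.filter fun e => e ∈ H.graph.edgeSet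
  have hE : E.card = H.size := by
    unfold size
    rw [← Set.ncard_coe_finset]
    congr 1
    ext e
    simp [E]
  have hcov : (Finset.univ : Finset (Fin n)) ⊆
      Z ∪ E.biUnion (fun e => Finset.univ.filter fun x => x ∈ e) := by
    intro x _
    rw [Finset.mem_union, Finset.mem_biUnion]
    by_cases hx : ∀ y, ¬ H.graph.Adj x y
    · left
      simp only [Z, Finset.mem_filter, Finset.mem_univ, true_and]
      exact hx
    · right
      push Not at hx
      obtain ⟨y, hxy⟩ := hx
      refine ⟨s(x, y), ?_, ?_⟩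
      · simp only [E, Finset.mem_filter, Finset.mem_univ, true_and]
        exact hxy
      · simp
  have hcard2 : ∀ e ∈ E, (Finset.univ.filter fun x => x ∈ e).card ≤ 2 := by
    intro e _
    induction e using Sym2.ind with
    | _ x y =>
      have : (Finset.univ.filter fun z => z ∈ s(x, y)) ⊆ {x, y} := by
        intro z hz
        simp only [Finset.mem_filter, Finset.mem_univ, true_and, Sym2.mem_iff] at hz
        simpa using hz
      exact (Finset.card_le_card this).trans Finset.card_le_two
  have h1 := Finset.card_le_card hcov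
  have h2 : (E.biUnion (fun e => Finset.univ.filter fun x => x ∈ e)).card ≤ E.card * 2 :=
    Finset.card_biUnion_le_card_mul _ _ _ hcard2
  have h3 := Finset.card_union_le Z (E.biUnion (fun e => Finset.univ.filter fun x => x ∈ e))
  rw [Finset.card_univ, Fintype.card_fin] at h1
  omega

/-- There is a semisaturated graph on `n` vertices (the complete graph). -/
lemma exists_semisat (G : EOGraph V) (n : ℕ) : ∃ H : EOGraph (Fin n), SemiSaturated G H := by
  classical
  refine ⟨⟨⊤, fun e => (Fintype.equivFin (Sym2 (Fin n)) e : ℕ), ?_⟩, ?_⟩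
  · intro e _ e' _ h
    exact (Fintype.equivFin (Sym2 (Fin n))).injective (Fin.ext h)
  · intro u v huv h
    exact absurd ((SimpleGraph.top_adj u v).2 huv) h

lemma le_ssatm {G : EOGraph V} {a b : V} (hab : G.graph.Adj a b)
    (hmin : ∀ e ∈ G.graph.edgeSet, G.label s(a, b) ≤ G.label e)
    (hdeg : (∃ c, c ≠ b ∧ G.graph.Adj a c) ∨ ∃ c, c ≠ a ∧ G.graph.Adj b c) (n : ℕ) :
    n ≤ 2 * ssatm n G + 1 := by
  obtain ⟨H', h'⟩ := exists_semisat G n
  have hne : {k | ∃ H : EOGraph (Fin n), SemiSaturated G H ∧ H.size = k}.Nonempty :=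
    ⟨_, H', h', rfl⟩
  obtain ⟨H₂, h7, h8⟩ := Nat.sInf_mem hne
  have := semisat_size hab hmin hdeg h7
  rw [h8] at this
  exact this

/-- The two functions have the same order of magnitude when the minimal edge has an endpoint of
degree one and is not isolated. -/
theorem same_order_pendant [Finite V] (G : EOGraph V) {a b : V} (hab : G.graph.Adj a b)
    (hmin : ∀ e ∈ G.graph.edgeSet, G.label s(a, b) ≤ G.label e)
    (hleaf : ∀ c, G.graph.Adj b c → c = a) (hdeg : ∃ c, c ≠ b ∧ G.graph.Adj a c) (n : ℕ) :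
    satm n G ≤ 3 * (2 * Nat.card V + 1) * (G.size + 1) * max (ssatm n G) 1 := by
  obtain ⟨H, h2, h3⟩ := exists_saturated_pendant G hab hmin hleaf n
  have h4 : H.size ∈ {k | ∃ H : EOGraph (Fin n), Saturated G H ∧ H.size = k} := ⟨H, h2, rfl⟩
  have h5 : satm n G ≤ (2 * Nat.card V + 1) * (G.size + 1) * n := (Nat.sInf_le h4).trans h3
  have h6 : n ≤ 2 * ssatm n G + 1 := le_ssatm hab hmin (Or.inl hdeg) n
  have h7 : n ≤ 3 * max (ssatm n G) 1 := by omega
  calc satm n G ≤ (2 * Nat.card V + 1) * (G.size + 1) * n := h5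
    _ ≤ (2 * Nat.card V + 1) * (G.size + 1) * (3 * max (ssatm n G) 1) :=
      Nat.mul_le_mul_left _ h7
    _ = _ := by ring

end EOGraph

end Pool.Agent.helper63.SAT
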