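import Mathlib
import Pool.Agent.helper63.SAT.Defs

/-!
# Edge-ordered graphs whose minimal edge has an endpoint of degree one
-/

namespace Pool.Agent.helper63.SAT

namespace EOGraph

variable {V : Type*}

/-- The minimal edge `ab` of `G` exists and its endpoint `b` has degree one. -/
def MinEdgePendant (G : EOGraph V) : Prop :=
  ∃ a b : V, G.graph.Adj a b ∧ (∀ c, G.graph.Adj b c → c = a) ∧
    ∀ e ∈ G.graph.edgeSet, G.label s(a, b) ≤ G.label e

end EOGraph

end Pool.Agent.helper63.SAT
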